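import Mathlib
import Pool.Agent.Q263.SV.Err

/-!
Integers with restricted digits in a fixed residue class, and their distribution to a second
modulus.
-/

set_option autoImplicit false

open Finset

namespace Pool.Agent.Q263.SW

open Pool.Agent.Q263.MD (Dig nb nb_spec nb_digits card_Dig maj maj_le_one maj_pos maj_add_int
  char_sum maj_shift digit_sum)
open Pool.Agent.Q263.SV (Ph Ph_nonneg Ph_le_one Ph_add_int)

/-- the exponential function -/
noncomputable def E (θ : ℝ) : ℂ := Complex.exp (2 * Real.pi * Complex.I * θ)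

lemma norm_E (θ : ℝ) : ‖E θ‖ = 1 := by
  unfold E
  rw [show (2 * Real.pi * Complex.I * θ : ℂ) = ((2 * Real.pi * θ : ℝ) : ℂ) * Complex.I by
    push_cast; ring, Complex.norm_exp_ofReal_mul_I]

lemma E_add (x y : ℝ) : E (x + y) = E x * E y := by
  unfold E
  rw [← Complex.exp_add]
  congr 1
  push_cast
  ring

lemma E_zero : E 0 = 1 := by
  unfold E
  simp

lemma E_char {q : ℕ} [NeZero q] (j : ℤ) : E ((j : ℝ) / q) = ZMod.stdAddChar (j : ZMod q) := by
  rw [ZMod.stdAddChar_coe]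
  unfold E
  congr 1
  push_cast
  ring

/-- orthogonality -/
lemma orth (q : ℕ) (hq : 1 ≤ q) (y : ℤ) :
    ∑ a ∈ range q, E ((a : ℝ) * y / q) = if (q : ℤ) ∣ y then (q : ℂ) else 0 := by
  have : NeZero q := ⟨by omega⟩
  have h1 : ∑ a ∈ range q, E ((a : ℝ) * y / q) =
      ∑ x : ZMod q, (ZMod.stdAddChar (x * ((y : ZMod q) - 0)) : ℂ) := by
    apply Finset.sum_bij (fun (a : ℕ) _ => (a : ZMod q))
    · intro a _
      exact Finset.mem_univ _
    · intro a ha c hc h
      rw [Finset.mem_range] at ha hc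
      have h2 := congrArg ZMod.val h
      rw [ZMod.val_natCast_of_lt ha, ZMod.val_natCast_of_lt hc] at h2
      exact h2
    · intro x _
      exact ⟨x.val, Finset.mem_range.2 (ZMod.val_lt x), ZMod.natCast_zmod_val x⟩
    · intro a _
      have h3 := E_char (q := q) ((a : ℤ) * y)
      push_cast at h3
      rw [h3, sub_zero]
  rw [h1, AddChar.sum_mulShift _ (ZMod.isPrimitive_stdAddChar q), ZMod.card]
  have h2 : (y : ZMod q) - 0 = 0 ↔ (q : ℤ) ∣ y := by
    rw [sub_zero, ZMod.intCast_zmod_eq_zero_iff_dvd]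
  by_cases h : (q : ℤ) ∣ y
  · rw [if_pos h, if_pos (h2.2 h)]
  · rw [if_neg h, if_neg (fun h3 => h (h2.1 h3))]
    simp

/-- sums over the integers with restricted digits -/
lemma sum_Dig {b k : ℕ} (D : Fin k → Finset ℕ) (hD : ∀ i, ∀ d ∈ D i, d < b) (f : ℕ → ℂ) :
    ∑ m ∈ Dig b k D, f m = ∑ d ∈ Fintype.piFinset D, f (nb b d) := by
  classical
  symm
  apply Finset.sum_bij (fun d _ => nb b d)
  · intro d hd
    rw [Fintype.mem_piFinset] at hd
    obtain ⟨h1, h2⟩ := nb_spec (b := b) d (fun i => hD i _ (hd i))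
    unfold Dig
    rw [Finset.mem_filter, Finset.mem_range]
    exact ⟨h1, fun i => by rw [h2 i]; exact hd i⟩
  · intro d hd d' hd' h
    rw [Fintype.mem_piFinset] at hd hd'
    obtain ⟨-, h2⟩ := nb_spec (b := b) d (fun i => hD i _ (hd i))
    obtain ⟨-, h2'⟩ := nb_spec (b := b) d' (fun i => hD i _ (hd' i))
    ext i
    rw [← h2 i, ← h2' i, h]
  · intro n h1
    unfold Dig at h1
    rw [Finset.mem_filter, Finset.mem_range] at h1
    refine ⟨fun i : Fin k => n / b ^ (i : ℕ) % b, ?_, nb_digits h1.1⟩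
    rw [Fintype.mem_piFinset]
    exact h1.2
  · intro d _
    rfl

/-- the exponential sum of the integers with restricted digits at a fraction -/
theorem dig_exp {b : ℕ} (hb : 2 ≤ b) {k : ℕ} (D : Fin k → Finset ℕ)
    (hD : ∀ i, ∀ d ∈ D i, d < b) (hD2 : ∀ i, 2 ≤ (D i).card) (Q : ℕ) (hQ : 1 ≤ Q) (j : ℕ) :
    ‖∑ m ∈ Dig b k D, E ((m : ℝ) * ((j : ℝ) / Q))‖ ≤ (Dig b k D).card * Ph b k ((j : ℝ) / Q) := by
  classical
  have : NeZero Q := ⟨by omega⟩
  set x : ZMod Q := (j : ZMod Q) with hx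
  have hval : Ph b k ((j : ℝ) / Q) = Ph b k ((x.val : ℝ) / Q) := by
    rw [hx, ZMod.val_natCast]
    have h1 := Nat.div_add_mod j Q
    have hQ0 : (Q : ℝ) ≠ 0 := by exact_mod_cast (by omega : Q ≠ 0)
    have h2 : (j : ℝ) / Q = ((j % Q : ℕ) : ℝ) / Q + (((j / Q : ℕ) : ℤ) : ℝ) := by
      have h3 : (j : ℝ) = Q * ((j / Q : ℕ) : ℝ) + ((j % Q : ℕ) : ℝ) := by
        exact_mod_cast h1.symm
      rw [Int.cast_natCast]
      rw [div_add' _ _ _ hQ0]
      congr 1
      linarith
    rw [h2, Ph_add_int]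
  have h0 : ∀ m : ℕ, E ((m : ℝ) * ((j : ℝ) / Q)) = ZMod.stdAddChar (x * (m : ZMod Q)) := by
    intro m
    have h3 := E_char (q := Q) ((m : ℤ) * j)
    push_cast at h3
    rw [← mul_div_assoc, h3, hx, mul_comm]
  rw [sum_Dig D hD, card_Dig D hD, hval]
  have e1 : ∑ d ∈ Fintype.piFinset D, E (((nb b d : ℕ) : ℝ) * ((j : ℝ) / Q)) =
      ∏ i, ∑ c ∈ D i, (ZMod.stdAddChar ((c : ZMod Q) * (x * (b : ZMod Q) ^ (i : ℕ))) : ℂ) := by
    rw [Finset.prod_univ_sum]
    refine Finset.sum_congr rfl fun d _ => ?_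
    rw [h0, ← char_sum]
    congr 1
    unfold nb
    push_cast
    rw [Finset.mul_sum]
    refine Finset.sum_congr rfl fun i _ => ?_
    ring
  unfold Ph
  push_cast
  rw [e1, norm_prod, Finset.prod_range (fun i => maj b ((b : ℝ) ^ i * ((x.val : ℝ) / Q))),
    ← Finset.prod_mul_distrib]
  refine Finset.prod_le_prod (fun i _ => norm_nonneg _) fun i _ => ?_
  refine (digit_sum hb (D i) (hD i) (hD2 i) _).trans (le_of_eq ?_)
  congr 1
  have := maj_shift b (i : ℕ) 0 x
  rw [pow_zero, one_mul, add_zero] at this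
  exact this

/-- the mean value of the majorants at the fractions with denominator `q` -/
noncomputable def Fm (b k q : ℕ) (x : ℝ) : ℝ :=
  (1 / (q : ℝ)) * ∑ a ∈ range q, Ph b k ((a : ℝ) / q + x)

lemma Fm_nonneg {b : ℕ} (hb : 2 ≤ b) (k q : ℕ) (x : ℝ) : 0 ≤ Fm b k q x :=
  mul_nonneg (by positivity) (Finset.sum_nonneg fun _ _ => Ph_nonneg hb _ _)

/-- the error term -/
noncomputable def Er (f : ℝ → ℝ) (d : ℕ) : ℝ := ∑ x ∈ (range d).erase 0, f ((x : ℝ) / d)

/-- the distribution of a residue class to a second modulus -/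
theorem class_err {b : ℕ} (hb : 2 ≤ b) {k : ℕ} (D : Fin k → Finset ℕ)
    (hD : ∀ i, ∀ d ∈ D i, d < b) (hD2 : ∀ i, 2 ≤ (D i).card) (q : ℕ) (hq : 1 ≤ q) (r : ℕ)
    (d : ℕ) (hd : 1 ≤ d) (c : ℕ) (hc : c < d) :
    |((((Dig b k D).filter (fun m => m % q = r % q)).filter (fun m => m % d = c)).card : ℝ) -
      ((Dig b k D).filter (fun m => m % q = r % q)).card / d| ≤
      (Dig b k D).card * (Er (Fm b k q) d / d) := by
  classical
  have hq0 : (0 : ℝ) < q := by exact_mod_cast hq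
  have hd0 : (0 : ℝ) < d := by exact_mod_cast hd
  set S := Dig b k D with hS
  -- indicator functions
  have hind : ∀ (n : ℕ), 1 ≤ n → ∀ m s : ℕ, (∑ a ∈ range n, E ((a : ℝ) * (((m : ℤ) - s : ℤ) : ℝ) / n)) =
      if m % n = s % n then (n : ℂ) else 0 := by
    intro n hn m s
    rw [orth n hn]
    have h1 : ((n : ℤ) ∣ (m : ℤ) - s) ↔ m % n = s % n := by
      rw [← Nat.modEq_iff_dvd]
      exact ⟨fun h => h.symm, fun h => h.symm⟩
    by_cases h : m % n = s % n
    · rw [if_pos h, if_pos (h1.2 h)]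
    · rw [if_neg h, if_neg (fun h2 => h (h1.1 h2))]
  set A := (S.filter (fun m => m % q = r % q)).filter (fun m => m % d = c) with hA
  set B := S.filter (fun m => m % q = r % q) with hB
  have hBc : ((B.card : ℂ)) * q = ∑ m ∈ S, ∑ a ∈ range q, E ((a : ℝ) * (((m : ℤ) - r : ℤ) : ℝ) / q) := by
    rw [hB, Finset.card_filter]
    push_cast
    rw [Finset.sum_mul]
    refine Finset.sum_congr rfl fun m _ => ?_
    have := hind q hq m r
    push_cast at this
    rw [this]
    split_ifs <;> simp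
  have hAc : ((A.card : ℂ)) * q * d = ∑ m ∈ S, (∑ a ∈ range q, E ((a : ℝ) * (((m : ℤ) - r : ℤ) : ℝ) / q)) *
      ∑ h ∈ range d, E ((h : ℝ) * (((m : ℤ) - c : ℤ) : ℝ) / d) := by
    rw [hA, Finset.filter_filter, Finset.card_filter]
    push_cast
    rw [Finset.sum_mul, Finset.sum_mul]
    refine Finset.sum_congr rfl fun m _ => ?_
    have h1 := hind q hq m r
    have h2 := hind d hd m c
    rw [Nat.mod_eq_of_lt hc] at h2
    push_cast at h1 h2
    rw [h1, h2]
    by_cases g1 : m % q = r % q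
    · by_cases g2 : m % d = c
      · rw [if_pos ⟨g1, g2⟩, if_pos g1, if_pos g2]
        ring
      · rw [if_neg (fun h => g2 h.2), if_pos g1, if_neg g2]
        ring
    · rw [if_neg (fun h => g1 h.1), if_neg g1]
      ring
  have h0mem : (0 : ℕ) ∈ range d := Finset.mem_range.2 (by omega)
  have hdiff : ((A.card : ℂ)) * q * d - (B.card : ℂ) * q =
      ∑ h ∈ (range d).erase 0, ∑ a ∈ range q,
        E (-((a : ℝ) * r / q) - (h : ℝ) * c / d) *
          ∑ m ∈ S, E ((m : ℝ) * (((a * d + h * q : ℕ) : ℝ) / ((q * d : ℕ) : ℝ))) := by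
    rw [hAc, hBc, ← Finset.sum_sub_distrib]
    have h1 : ∀ m ∈ S, (∑ a ∈ range q, E ((a : ℝ) * (((m : ℤ) - r : ℤ) : ℝ) / q)) *
        ∑ h ∈ range d, E ((h : ℝ) * (((m : ℤ) - c : ℤ) : ℝ) / d) -
        ∑ a ∈ range q, E ((a : ℝ) * (((m : ℤ) - r : ℤ) : ℝ) / q) =
        ∑ h ∈ (range d).erase 0, ∑ a ∈ range q, E (-((a : ℝ) * r / q) - (h : ℝ) * c / d) *
          E ((m : ℝ) * (((a * d + h * q : ℕ) : ℝ) / ((q * d : ℕ) : ℝ))) := by
      intro m _
      rw [← Finset.add_sum_erase _ _ h0mem]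
      have e0 : E (((0 : ℕ) : ℝ) * (((m : ℤ) - c : ℤ) : ℝ) / d) = 1 := by
        rw [Nat.cast_zero, zero_mul, zero_div, E_zero]
      rw [e0, mul_add, mul_one, add_sub_cancel_left, Finset.sum_mul_sum, Finset.sum_comm]
      refine Finset.sum_congr rfl fun h _ => Finset.sum_congr rfl fun a _ => ?_
      rw [← E_add, ← E_add]
      congr 1
      push_cast
      field_simp
      ring
    rw [Finset.sum_congr rfl h1, Finset.sum_comm]
    refine Finset.sum_congr rfl fun h _ => ?_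
    rw [Finset.sum_comm]
    refine Finset.sum_congr rfl fun a _ => ?_
    rw [Finset.mul_sum]
  have hbound : ‖((A.card : ℂ)) * q * d - (B.card : ℂ) * q‖ ≤
      (S.card : ℝ) * (q * Er (Fm b k q) d) := by
    rw [hdiff]
    unfold Er Fm
    rw [Finset.mul_sum, Finset.mul_sum]
    refine (norm_sum_le _ _).trans (Finset.sum_le_sum fun h _ => ?_)
    refine (norm_sum_le _ _).trans ?_
    have e2 : (S.card : ℝ) * ((q : ℝ) * (1 / (q : ℝ) * ∑ a ∈ range q, Ph b k ((a : ℝ) / q + (h : ℝ) / d))) =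
        ∑ a ∈ range q, (S.card : ℝ) * Ph b k ((a : ℝ) / q + (h : ℝ) / d) := by
      rw [← mul_assoc (q : ℝ), mul_one_div_cancel hq0.ne', one_mul, Finset.mul_sum]
    rw [e2]
    refine Finset.sum_le_sum fun a _ => ?_
    rw [norm_mul, norm_E, one_mul]
    refine (dig_exp hb D hD hD2 (q * d) (Nat.mul_pos (by omega) (by omega)) (a * d + h * q)).trans
      (le_of_eq ?_)
    congr 2
    push_cast
    field_simp
  have hreal : ‖((A.card : ℂ)) * q * d - (B.card : ℂ) * q‖ = |(A.card : ℝ) * q * d - B.card * q| := by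
    rw [← Real.norm_eq_abs, ← Complex.norm_real]
    push_cast
    rfl
  rw [hreal] at hbound
  have e1 : (A.card : ℝ) - B.card / d = ((A.card : ℝ) * q * d - B.card * q) / (q * d) := by
    field_simp
  rw [e1, abs_div, abs_of_pos (by positivity : (0 : ℝ) < q * d), div_le_iff₀ (by positivity)]
  refine hbound.trans (le_of_eq ?_)
  field_simp

end Pool.Agent.Q263.SW
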