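import Mathlib
import Pool.Agent.Q263.SV.Sum
import Pool.Agent.Q263.SW.Err

/-!
Sums of the error terms over squarefree moduli, for a general nonnegative function.
-/

set_option autoImplicit false

open Finset

namespace Pool.Agent.Q263.SW

open Pool.Agent.Q263.SV (sum_le_inj)

/-- the sum over the reduced fractions with denominator `d` -/
noncomputable def G (f : ℝ → ℝ) (d : ℕ) : ℝ := ∑ a ∈ (range d).filter (fun a => a.Coprime d), f ((a : ℝ) / d)

lemma G_nonneg {f : ℝ → ℝ} (hf : ∀ x, 0 ≤ f x) (d : ℕ) : 0 ≤ G f d :=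
  Finset.sum_nonneg fun _ _ => hf _

/-- splitting according to the denominators in lowest terms -/
lemma Er_le {f : ℝ → ℝ} (hf : ∀ x, 0 ≤ f x) (T : Finset ℕ) (hT : ∀ p ∈ T, p.Prime) :
    Er f (∏ p ∈ T, p) ≤ ∑ T' ∈ T.powerset.erase ∅, G f (∏ p ∈ T', p) := by
  classical
  unfold Er G
  rw [Finset.sum_sigma']
  have hsplit : ∀ x : ℕ, (∏ p ∈ T.filter (fun p => p ∣ x), p) *
      (∏ p ∈ T.filter (fun p => ¬ p ∣ x), p) = ∏ p ∈ T, p := by
    intro x
    exact Finset.prod_filter_mul_prod_filter_not T (fun p => p ∣ x) (fun p => p)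
  have hdvd : ∀ x : ℕ, (∏ p ∈ T.filter (fun p => p ∣ x), p) ∣ x := by
    intro x
    apply Finset.prod_primes_dvd
    · intro p hp
      exact (hT p (Finset.mem_filter.1 hp).1).prime
    · intro p hp
      exact (Finset.mem_filter.1 hp).2
  have hpos : ∀ S : Finset ℕ, S ⊆ T → 0 < ∏ p ∈ S, p := by
    intro S hS
    exact Finset.prod_pos fun p hp => (hT p (hS hp)).pos
  refine sum_le_inj _ _ (fun x => (⟨T.filter (fun p => ¬ p ∣ x),
    x / ∏ p ∈ T.filter (fun p => p ∣ x), p⟩ : (Σ _ : Finset ℕ, ℕ))) _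
    (fun s => f ((s.2 : ℝ) / ((∏ p ∈ s.1, p : ℕ) : ℝ))) ?_ ?_ ?_ ?_
  · intro x hx
    rw [Finset.mem_erase, Finset.mem_range] at hx
    rw [Finset.mem_sigma, Finset.mem_erase, Finset.mem_powerset, Finset.mem_filter,
      Finset.mem_range]
    have hes := hsplit x
    have hep := hpos _ (Finset.filter_subset (fun p => p ∣ x) T)
    obtain ⟨a, ha⟩ := hdvd x
    set e := ∏ p ∈ T.filter (fun p => p ∣ x), p with he
    set d := ∏ p ∈ T.filter (fun p => ¬ p ∣ x), p with hd
    have hxe : x / e = a := by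
      rw [ha]
      exact Nat.mul_div_cancel_left a hep
    simp only [hxe]
    refine ⟨⟨?_, Finset.filter_subset _ _⟩, ?_, ?_⟩
    · intro h0
      have hd1 : d = 1 := by rw [hd, h0, Finset.prod_empty]
      rw [hd1, mul_one] at hes
      have h1 : ∏ p ∈ T, p ∣ x := by
        rw [← hes]
        exact ⟨a, ha⟩
      have := Nat.le_of_dvd (by omega) h1
      omega
    · have h1 : e * a < e * d := by
        rw [← ha, hes]
        exact hx.2
      exact lt_of_mul_lt_mul_left h1 (Nat.zero_le _)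
    · rw [hd]
      apply Nat.Coprime.prod_right
      intro p hp
      rw [Finset.mem_filter] at hp
      rw [Nat.coprime_comm]
      rw [(hT p hp.1).coprime_iff_not_dvd]
      intro h2
      apply hp.2
      rw [ha]
      exact h2.mul_left e
  · intro x hx y hy h
    rw [Sigma.mk.injEq] at h
    obtain ⟨h1, h2⟩ := h
    have h2' := eq_of_heq h2
    have h3 : (∏ p ∈ T.filter (fun p => p ∣ x), p) = ∏ p ∈ T.filter (fun p => p ∣ y), p := by
      have e1 := hsplit x
      have e2 := hsplit y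
      rw [h1] at e1
      have h5 := hpos _ (Finset.filter_subset (fun p => ¬ p ∣ y) T)
      exact Nat.eq_of_mul_eq_mul_right h5 (e1.trans e2.symm)
    have h6 := Nat.div_mul_cancel (hdvd x)
    have h7 := Nat.div_mul_cancel (hdvd y)
    rw [h2', h3] at h6
    rw [← h6, h7]
  · intro x hx
    rw [Finset.mem_erase, Finset.mem_range] at hx
    apply le_of_eq
    congr 1
    have hes := hsplit x
    have hep := hpos _ (Finset.filter_subset (fun p => p ∣ x) T)
    have hdp := hpos _ (Finset.filter_subset (fun p => ¬ p ∣ x) T)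
    obtain ⟨a, ha⟩ := hdvd x
    set e := ∏ p ∈ T.filter (fun p => p ∣ x), p with he
    set d := ∏ p ∈ T.filter (fun p => ¬ p ∣ x), p with hd
    have hxe : x / e = a := by
      rw [ha]
      exact Nat.mul_div_cancel_left a hep
    have he0 : (e : ℝ) ≠ 0 := by exact_mod_cast hep.ne'
    have hd0 : (d : ℝ) ≠ 0 := by exact_mod_cast hdp.ne'
    simp only [hxe]
    rw [← hes]
    have hax : (x : ℝ) = e * a := by exact_mod_cast ha
    rw [hax]
    push_cast
    field_simp
  · intro s _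
    exact hf _

/-- interchanging the summations -/
theorem sum_Er_le {f : ℝ → ℝ} (hf : ∀ x, 0 ≤ f x) (P : Finset ℕ) (hP : ∀ p ∈ P, p.Prime) (κ : ℝ)
    (hκ : 0 ≤ κ) (Y : ℕ) :
    ∑ T ∈ P.powerset.filter (fun T : Finset ℕ => ∏ p ∈ T, p ≤ Y),
      (∏ p ∈ T, κ / (p : ℝ)) * Er f (∏ p ∈ T, p) ≤
    (∏ p ∈ P, (1 + κ / (p : ℝ))) *
      ∑ T ∈ (P.powerset.filter (fun T : Finset ℕ => ∏ p ∈ T, p ≤ Y)).erase ∅,
        (∏ p ∈ T, κ / (p : ℝ)) * G f (∏ p ∈ T, p) := by
  classical
  have hW : ∀ T : Finset ℕ, 0 ≤ ∏ p ∈ T, κ / (p : ℝ) := fun T =>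
    Finset.prod_nonneg fun p _ => div_nonneg hκ (Nat.cast_nonneg p)
  rw [Finset.prod_one_add, Finset.sum_mul_sum]
  have h1 : ∑ T ∈ P.powerset.filter (fun T : Finset ℕ => ∏ p ∈ T, p ≤ Y),
      (∏ p ∈ T, κ / (p : ℝ)) * Er f (∏ p ∈ T, p) ≤
      ∑ T ∈ P.powerset.filter (fun T : Finset ℕ => ∏ p ∈ T, p ≤ Y),
        ∑ T' ∈ T.powerset.erase ∅, (∏ p ∈ T, κ / (p : ℝ)) * G f (∏ p ∈ T', p) := by
    refine Finset.sum_le_sum fun T hT => ?_
    rw [Finset.mem_filter, Finset.mem_powerset] at hT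
    rw [← Finset.mul_sum]
    exact mul_le_mul_of_nonneg_left (Er_le hf T fun p hp => hP p (hT.1 hp)) (hW T)
  refine h1.trans ?_
  rw [Finset.sum_sigma', ← Finset.sum_product']
  refine sum_le_inj _ _ (fun s => (s.1 \ s.2, s.2)) _ _ ?_ ?_ ?_ ?_
  · rintro ⟨T, T'⟩ hs
    rw [Finset.mem_sigma, Finset.mem_filter, Finset.mem_powerset, Finset.mem_erase,
      Finset.mem_powerset] at hs
    obtain ⟨⟨h2, h3⟩, h4, h5⟩ := hs
    simp only at h2 h3 h4 h5
    rw [Finset.mem_product, Finset.mem_powerset, Finset.mem_erase, Finset.mem_filter,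
      Finset.mem_powerset]
    refine ⟨(Finset.sdiff_subset).trans h2, h4, h5.trans h2, ?_⟩
    refine le_trans ?_ h3
    exact Finset.prod_le_prod_of_subset_of_one_le' h5 fun p hp _ => (hP p (h2 hp)).one_lt.le
  · rintro ⟨T, T'⟩ hs ⟨U, U'⟩ hs' h
    rw [Finset.mem_sigma, Finset.mem_filter, Finset.mem_powerset, Finset.mem_erase,
      Finset.mem_powerset] at hs hs'
    obtain ⟨-, -, h5⟩ := hs
    obtain ⟨-, -, h5'⟩ := hs'
    simp only at h5 h5'
    rw [Prod.mk.injEq] at h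
    obtain ⟨h6, h7⟩ := h
    simp only at h6 h7
    subst h7
    have h8 : T = U := by
      rw [← Finset.sdiff_union_of_subset h5, h6, Finset.sdiff_union_of_subset h5']
    subst h8
    rfl
  · rintro ⟨T, T'⟩ hs
    rw [Finset.mem_sigma, Finset.mem_filter, Finset.mem_powerset, Finset.mem_erase,
      Finset.mem_powerset] at hs
    obtain ⟨-, -, h5⟩ := hs
    simp only at h5 ⊢
    apply le_of_eq
    rw [← mul_assoc]
    congr 1
    rw [Finset.prod_sdiff h5]
  · rintro ⟨U, T'⟩ _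
    exact mul_nonneg (hW U) (mul_nonneg (hW T') (G_nonneg hf _))

end Pool.Agent.Q263.SW
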