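import Mathlib
import Pool.Agent.Q263.SW.Sum
import Pool.Agent.Q263.SV.Lev

/-!
The level of distribution of a residue class.
-/

set_option autoImplicit false

open Finset

namespace Pool.Agent.Q263.SW

open Pool.Agent.Q263.MD (maj maj_le_one maj_pos maj_add_int maj_small sig sig_pos sig_lt frs
  mem_frs frs_ne frs_closed frs_gap Near Sepd Sm kap_pos)
open Pool.Agent.Q263.SV (Ph Ph_nonneg Ph_le_one Ph_add_int far sum_le_inj)

/-- fractions with a denominator with a part prime to `b!` -/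
lemma Ph_le_sig {b : ℕ} (hb : 2 ≤ b) (m q a h d : ℕ) (hq : 1 ≤ q) (hd : 1 < d)
    (hdb : d.Coprime b.factorial) (hdq : d.Coprime q)
    (hh : h.Coprime d) (hdm : q * d ≤ b ^ m) : Ph b (m + 1) ((a : ℝ) / q + (h : ℝ) / d) ≤ sig b := by
  have hb0 : (0 : ℝ) < b := by exact_mod_cast (by omega : 0 < b)
  have hb2 : (2 : ℝ) ≤ b := by exact_mod_cast hb
  have hd0 : (0 : ℝ) < d := by exact_mod_cast (by omega : 0 < d)
  have hq0 : (0 : ℝ) < q := by exact_mod_cast hq
  obtain ⟨i, hi, hfar⟩ : ∃ i ≤ m, ∀ p ∈ frs b, ¬ Near (1 / (4 * (b : ℝ) ^ 2) / b) p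
      ((b : ℝ) ^ i * ((a : ℝ) / q + (h : ℝ) / d)) := by
    by_contra hcon
    push Not at hcon
    obtain ⟨p, hp, n, hn⟩ := far hb m ((a : ℝ) / q + (h : ℝ) / d) hcon
    obtain ⟨e, j, he1, heb, hje, rfl⟩ := mem_frs.1 hp
    have he0 : (0 : ℝ) < e := by exact_mod_cast he1
    have hz : ((a : ℤ) * d + h * q) * e - j * (q * d) - n * (q * d * e) ≠ 0 := by
      intro h0
      have h1 : (d : ℤ) ∣ ((h : ℤ) * q) * e :=
        ⟨j * q + n * q * e - a * e, by linear_combination h0⟩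
      have h2 : d ∣ (h * q) * e := by exact_mod_cast h1
      have h3 : d ∣ e := Nat.Coprime.dvd_of_dvd_mul_left (Nat.Coprime.mul_right hh.symm hdq) h2
      have h4 : d ∣ b.factorial := h3.trans (Nat.dvd_factorial he1 heb.le)
      have h5 := Nat.Coprime.eq_one_of_dvd hdb h4
      omega
    have h1 : (a : ℝ) / q + (h : ℝ) / d - (j : ℝ) / e - n =
        ((((a : ℤ) * d + h * q) * e - j * (q * d) - n * (q * d * e) : ℤ) : ℝ) / (q * d * e) := by
      push_cast
      field_simp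
    have h2 : (1 : ℝ) ≤ |((((a : ℤ) * d + h * q) * e - j * (q * d) - n * (q * d * e) : ℤ) : ℝ)| := by
      rw [← Int.cast_abs]
      exact_mod_cast Int.one_le_abs hz
    rw [h1, abs_div, abs_of_pos (by positivity : (0 : ℝ) < q * d * e)] at hn
    have h3 : 1 / (b : ℝ) ≤ |((((a : ℤ) * d + h * q) * e - j * (q * d) - n * (q * d * e) : ℤ) : ℝ)| /
        (q * d * e) * (b : ℝ) ^ m := by
      rw [div_mul_eq_mul_div, div_le_div_iff₀ hb0 (by positivity)]
      have h4 : (q : ℝ) * d ≤ (b : ℝ) ^ m := by exact_mod_cast hdm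
      have h5 : (e : ℝ) ≤ b := by exact_mod_cast heb.le
      have h6 : (q : ℝ) * d * e ≤ (b : ℝ) ^ m * b := mul_le_mul h4 h5 he0.le (by positivity)
      calc 1 * ((q : ℝ) * d * e) ≤ 1 * ((b : ℝ) ^ m * b) := by linarith
        _ ≤ |((((a : ℤ) * d + h * q) * e - j * (q * d) - n * (q * d * e) : ℤ) : ℝ)| *
            ((b : ℝ) ^ m * b) := mul_le_mul_of_nonneg_right h2 (by positivity)
        _ = _ := by ring
    have h4 : 1 / (4 * (b : ℝ) ^ 2) / b ≤ 1 / b := by
      apply div_le_div_of_nonneg_right _ hb0.le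
      rw [div_le_one (by positivity)]
      nlinarith
    linarith
  unfold Ph
  rw [← Finset.mul_prod_erase _ _ (Finset.mem_range.2 (by omega : i < m + 1)),
    maj_small _ hfar]
  exact mul_le_of_le_one_right (sig_pos hb).le
    (Finset.prod_le_one (fun _ _ => (maj_pos hb _).le) fun _ _ => maj_le_one hb _)

/-- a pointwise bound -/
lemma Ph_blocks {b : ℕ} (hb : 2 ≤ b) (k M n : ℕ) (hn : 1 ≤ n) (hk : n * M ≤ k) (x : ℝ) :
    Ph b k x ≤ ∑ j ∈ range n, (1 / (n : ℝ)) * (Ph b M ((b : ℝ) ^ (j * M) * x)) ^ n := by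
  have h1 : Ph b k x ≤ ∏ j ∈ range n, Ph b M ((b : ℝ) ^ (j * M) * x) := by
    obtain ⟨r, rfl⟩ : ∃ r, k = n * M + r := ⟨k - n * M, by omega⟩
    unfold Ph
    rw [Finset.prod_range_add, Pool.Agent.Q263.MD.prod_blocks (fun i => maj b ((b : ℝ) ^ i * x))]
    have h2 : ∏ i ∈ range r, maj b ((b : ℝ) ^ (n * M + i) * x) ≤ 1 :=
      Finset.prod_le_one (fun i _ => (maj_pos hb _).le) fun i _ => maj_le_one hb _
    have h3 : ∏ j ∈ range n, ∏ i ∈ range M, maj b ((b : ℝ) ^ (j * M + i) * x) =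
        ∏ j ∈ range n, ∏ i ∈ range M, maj b ((b : ℝ) ^ i * ((b : ℝ) ^ (j * M) * x)) := by
      refine Finset.prod_congr rfl fun j _ => Finset.prod_congr rfl fun i _ => ?_
      congr 1
      rw [pow_add]
      ring
    rw [h3]
    exact mul_le_of_le_one_right (Finset.prod_nonneg fun j _ =>
      Finset.prod_nonneg fun i _ => (maj_pos hb _).le) h2
  exact h1.trans (Pool.Agent.Q263.MD.amgm n hn (fun j => Ph b M ((b : ℝ) ^ (j * M) * x))
    (fun j => Ph_nonneg hb _ _))

/-- blocks -/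
lemma G_le_blocks {b : ℕ} (hb : 2 ≤ b) (k q d M n : ℕ) (hq : 1 ≤ q) (hd : 1 < d)
    (hdb : d.Coprime b) (hn : 1 ≤ n) (hk : n * M ≤ k) :
    G (Fm b k q) d ≤ ∑ h ∈ (range d).filter (fun h => h.Coprime d), ∑ a ∈ range q,
      (Ph b M ((a : ℝ) / q + (h : ℝ) / d)) ^ n := by
  classical
  have hd0 : (0 : ℝ) < d := by exact_mod_cast (by omega : 0 < d)
  have hq0 : (0 : ℝ) < q := by exact_mod_cast hq
  have hn0 : (0 : ℝ) < n := by exact_mod_cast hn
  set R := ∑ h ∈ (range d).filter (fun h => h.Coprime d), ∑ a ∈ range q,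
      (Ph b M ((a : ℝ) / q + (h : ℝ) / d)) ^ n with hR
  have hred : ∀ (c u v : ℕ), 1 ≤ v → (c : ℝ) * ((u : ℝ) / v) =
      ((c * u % v : ℕ) : ℝ) / v + (((c * u / v : ℕ) : ℤ) : ℝ) := by
    intro c u v hv
    have hv0 : (0 : ℝ) < v := by exact_mod_cast hv
    have h2 : ((v * (c * u / v) + c * u % v : ℕ) : ℝ) = ((c * u : ℕ) : ℝ) := by
      rw [Nat.div_add_mod]
    generalize c * u / v = y at h2 ⊢
    generalize c * u % v = z at h2 ⊢
    push_cast at h2 ⊢
    field_simp
    linarith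
  have hperm : ∀ j a : ℕ, ∑ h ∈ (range d).filter (fun h => h.Coprime d),
      (Ph b M ((b : ℝ) ^ (j * M) * ((a : ℝ) / q + (h : ℝ) / d))) ^ n ≤ R := by
    intro j a
    set c := b ^ (j * M) with hc
    have hcd : c.Coprime d := Nat.Coprime.pow_left _ hdb.symm
    have hstep : ∑ h ∈ (range d).filter (fun h => h.Coprime d),
      (Ph b M ((b : ℝ) ^ (j * M) * ((a : ℝ) / q + (h : ℝ) / d))) ^ n ≤
      ∑ h ∈ (range d).filter (fun h => h.Coprime d),
        (Ph b M (((c * a % q : ℕ) : ℝ) / q + (h : ℝ) / d)) ^ n := by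
      refine sum_le_inj _ _ (fun h => c * h % d) _ _ ?_ ?_ ?_ ?_
      · intro h ha
        rw [Finset.mem_filter, Finset.mem_range] at ha ⊢
        refine ⟨Nat.mod_lt _ (by omega), ?_⟩
        unfold Nat.Coprime
        rw [← Nat.gcd_rec, Nat.gcd_comm]
        exact Nat.Coprime.mul_left hcd ha.2
      · intro a ha a' ha' h
        rw [Finset.mem_filter, Finset.mem_range] at ha ha'
        have h1 : c * a ≡ c * a' [MOD d] := h
        have h2 := Nat.ModEq.cancel_left_of_coprime hcd.symm h1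
        exact Nat.ModEq.eq_of_lt_of_lt h2 ha.1 ha'.1
      · intro h _
        apply le_of_eq
        congr 1
        have hcr : ((b : ℝ) ^ (j * M)) = (c : ℝ) := by rw [hc]; push_cast; rfl
        have h1 : (b : ℝ) ^ (j * M) * ((a : ℝ) / q + (h : ℝ) / d) =
            (((c * a % q : ℕ) : ℝ)) / q + (((c * h % d : ℕ) : ℝ)) / d +
              (((c * a / q : ℕ) : ℤ) + ((c * h / d : ℕ) : ℤ) : ℤ) := by
          rw [hcr, mul_add, hred c a q hq, hred c h d (by omega)]
          rw [Int.cast_add]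
          ring
        rw [h1, Ph_add_int]
      · intro a _
        exact pow_nonneg (Ph_nonneg hb _ _) _
    refine hstep.trans ?_
    rw [hR]
    refine Finset.sum_le_sum fun h _ => ?_
    exact Finset.single_le_sum (f := fun a : ℕ => (Ph b M ((a : ℝ) / q + (h : ℝ) / d)) ^ n)
      (fun i _ => pow_nonneg (Ph_nonneg hb _ _) _) (Finset.mem_range.2 (Nat.mod_lt _ (by omega)))
  have hR0 : 0 ≤ R := Finset.sum_nonneg fun h _ => Finset.sum_nonneg fun a _ =>
    pow_nonneg (Ph_nonneg hb _ _) _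
  unfold G Fm
  calc ∑ h ∈ (range d).filter (fun h => h.Coprime d), (1 / (q : ℝ)) *
        ∑ a ∈ range q, Ph b k ((a : ℝ) / q + (h : ℝ) / d)
      ≤ ∑ h ∈ (range d).filter (fun h => h.Coprime d), (1 / (q : ℝ)) *
        ∑ a ∈ range q, ∑ j ∈ range n, (1 / (n : ℝ)) *
          (Ph b M ((b : ℝ) ^ (j * M) * ((a : ℝ) / q + (h : ℝ) / d))) ^ n := by
        refine Finset.sum_le_sum fun h _ => mul_le_mul_of_nonneg_left ?_ (by positivity)
        exact Finset.sum_le_sum fun a _ => Ph_blocks hb k M n hn hk _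
    _ = (1 / (q : ℝ)) * ∑ a ∈ range q, ∑ j ∈ range n, (1 / (n : ℝ)) *
          ∑ h ∈ (range d).filter (fun h => h.Coprime d),
          (Ph b M ((b : ℝ) ^ (j * M) * ((a : ℝ) / q + (h : ℝ) / d))) ^ n := by
        rw [← Finset.mul_sum, Finset.sum_comm]
        congr 1
        refine Finset.sum_congr rfl fun a _ => ?_
        rw [Finset.sum_comm]
        refine Finset.sum_congr rfl fun j _ => ?_
        rw [Finset.mul_sum]
    _ ≤ (1 / (q : ℝ)) * ∑ _a ∈ range q, ∑ _j ∈ range n, (1 / (n : ℝ)) * R := by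
        apply mul_le_mul_of_nonneg_left _ (by positivity)
        exact Finset.sum_le_sum fun a _ => Finset.sum_le_sum fun j _ =>
          mul_le_mul_of_nonneg_left (hperm j a) (by positivity)
    _ = R := by
        rw [Finset.sum_const, Finset.sum_const, Finset.card_range, Finset.card_range,
          nsmul_eq_mul, nsmul_eq_mul]
        field_simp

/-- the denominators in a range -/
theorem level {b : ℕ} (hb : 2 ≤ b) (η : ℝ) (hη : 0 < η) :
    ∃ B : ℕ, 1 ≤ B ∧ ∀ (q : ℕ), 1 ≤ q → ∀ (M n k : ℕ) (Δ : Finset ℕ), 2 ≤ M → B ≤ n →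
      n * M ≤ k →
      (∀ d ∈ Δ, 1 < d ∧ d.Coprime b.factorial ∧ d.Coprime q ∧ (q * d) ^ 2 ≤ b ^ M) →
      ∑ d ∈ Δ, G (Fm b k q) d ≤ sig b ^ (n - B) * (2 * (frs b).card * (1 + η) ^ M) := by
  classical
  have hb0 : (0 : ℝ) < b := by exact_mod_cast (by omega : 0 < b)
  have hQ : (1 : ℝ) ≤ (frs b).card := by exact_mod_cast (frs_ne hb).card_pos
  obtain ⟨B, hBs⟩ := exists_pow_lt_of_lt_one
    (show 0 < min (1 / (4 * (b : ℝ))) (η / (2 * (frs b).card)) from lt_min (by positivity)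
      (by positivity)) (sig_lt hb)
  have hB1 : 1 ≤ B := by
    by_contra h
    have h0 : B = 0 := by omega
    rw [h0, pow_zero] at hBs
    have h1 := hBs.le.trans (min_le_left _ _)
    rw [le_div_iff₀ (by positivity)] at h1
    have : (2 : ℝ) ≤ b := by exact_mod_cast hb
    linarith
  refine ⟨B, hB1, fun q hq M n k Δ hM hn hk hΔ => ?_⟩
  have hq0 : (0 : ℝ) < q := by exact_mod_cast hq
  obtain ⟨m, rfl⟩ : ∃ m, M = m + 1 := ⟨M - 1, by omega⟩
  have hbfac : b ∣ b.factorial := Nat.dvd_factorial (by omega) (le_refl b)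
  -- one denominator
  have h1 : ∀ d ∈ Δ, G (Fm b k q) d ≤ sig b ^ (n - B) *
      ∑ h ∈ (range d).filter (fun h => h.Coprime d), ∑ a ∈ range q,
        (Ph b (m + 1) ((a : ℝ) / q + (h : ℝ) / d)) ^ B := by
    intro d hd
    obtain ⟨hd1, hdb, hdq, hdM⟩ := hΔ d hd
    have hdm : q * d ≤ b ^ m := by
      by_contra hcon
      push Not at hcon
      have h2 : b ^ m * b ^ m < (q * d) ^ 2 := by
        rw [sq]
        exact Nat.mul_lt_mul'' hcon hcon
      have h3 : b ^ (m + 1) ≤ b ^ m * b ^ m := by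
        rw [← pow_add]
        exact Nat.pow_le_pow_right (by omega) (by omega)
      omega
    refine (G_le_blocks hb k q d (m + 1) n hq hd1 (Nat.Coprime.coprime_dvd_right hbfac hdb)
      (hB1.trans hn) hk).trans ?_
    rw [Finset.mul_sum]
    refine Finset.sum_le_sum fun h ha => ?_
    rw [Finset.mul_sum]
    refine Finset.sum_le_sum fun a _ => ?_
    rw [Finset.mem_filter] at ha
    have h2 := Ph_le_sig hb m q a h d hq hd1 hdb hdq ha.2 hdm
    have h3 := Ph_nonneg hb (m + 1) ((a : ℝ) / q + (h : ℝ) / d)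
    calc (Ph b (m + 1) ((a : ℝ) / q + (h : ℝ) / d)) ^ n
        = (Ph b (m + 1) ((a : ℝ) / q + (h : ℝ) / d)) ^ (n - B) *
          (Ph b (m + 1) ((a : ℝ) / q + (h : ℝ) / d)) ^ B := by
          rw [← pow_add]
          congr 1
          omega
      _ ≤ _ := mul_le_mul_of_nonneg_right (pow_le_pow_left₀ h3 h2 _) (pow_nonneg h3 _)
  refine (Finset.sum_le_sum h1).trans ?_
  rw [← Finset.mul_sum]
  apply mul_le_mul_of_nonneg_left _ (pow_nonneg (sig_pos hb).le _)
  -- all the fractions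
  set I : Finset (Σ _ : ℕ, ℕ × ℕ) := Δ.sigma (fun d =>
    ((range d).filter (fun h => h.Coprime d)) ×ˢ (range q)) with hI
  set φ : (Σ _ : ℕ, ℕ × ℕ) → ℝ := fun s => (s.2.2 : ℝ) / q + (s.2.1 : ℝ) / s.1 with hφ
  set X : Finset ℝ := I.image φ with hX
  have hfrac : ∀ d ∈ Δ, ∀ h ∈ (range d).filter (fun h => h.Coprime d), ∀ a ∈ range q, ∀ d' ∈ Δ,
      ∀ h' ∈ (range d').filter (fun h => h.Coprime d'), ∀ a' ∈ range q, ∀ n : ℤ,
      ((a : ℤ) - a') * (d * d') + q * ((h : ℤ) * d' - h' * d) - n * (q * (d * d')) = 0 →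
      d = d' ∧ h = h' ∧ a = a' := by
    intro d hd h ha a haq d' hd' h' ha' a' haq' n h0
    rw [Finset.mem_filter, Finset.mem_range] at ha ha'
    rw [Finset.mem_range] at haq haq'
    obtain ⟨hd1, -, hdq, -⟩ := hΔ d hd
    obtain ⟨hd1', -, hdq', -⟩ := hΔ d' hd'
    have h2 : (d : ℤ) ∣ ((h : ℤ) * q) * d' :=
      ⟨q * h' + n * q * d' - (a - a') * d', by linear_combination h0⟩
    have h3 : d ∣ d' := Nat.Coprime.dvd_of_dvd_mul_left
      (Nat.Coprime.mul_right ha.2.symm hdq) (by exact_mod_cast h2)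
    have h4 : (d' : ℤ) ∣ ((h' : ℤ) * q) * d :=
      ⟨(a - a') * d + q * h - n * q * d, by linear_combination -h0⟩
    have h5 : d' ∣ d := Nat.Coprime.dvd_of_dvd_mul_left
      (Nat.Coprime.mul_right ha'.2.symm hdq') (by exact_mod_cast h4)
    have h6 : d = d' := Nat.dvd_antisymm h3 h5
    subst h6
    have hdz : (d : ℤ) ≠ 0 := by exact_mod_cast (by omega : d ≠ 0)
    have hqz : (q : ℤ) ≠ 0 := by exact_mod_cast (by omega : q ≠ 0)
    have h7 : ((a : ℤ) - a') * d + q * ((h : ℤ) - h') - n * (q * d) = 0 := by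
      have h8 : (d : ℤ) * (((a : ℤ) - a') * d + q * ((h : ℤ) - h') - n * (q * d)) = 0 := by
        linear_combination h0
      rcases mul_eq_zero.1 h8 with h9 | h9
      · exact absurd h9 hdz
      · exact h9
    have small : ∀ (N : ℕ) (u v : ℕ) (w : ℤ), u < N → v < N → (u : ℤ) - v = w * N → u = v := by
      intro N u v w hu hv huv
      have h8 : (u : ℤ) < N := by exact_mod_cast hu
      have h9 : (v : ℤ) < N := by exact_mod_cast hv
      have h10 : (0 : ℤ) < N := by omega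
      have h11 : w < 1 := by
        by_contra h
        push Not at h
        nlinarith
      have h12 : -1 < w := by
        by_contra h
        push Not at h
        nlinarith
      have h13 : w = 0 := by omega
      rw [h13, zero_mul] at huv
      have : (u : ℤ) = v := by linarith
      exact_mod_cast this
    have h8 : (q : ℤ) ∣ ((a : ℤ) - a') * d :=
      ⟨n * d - ((h : ℤ) - h'), by linear_combination h7⟩
    have hcop : IsCoprime (q : ℤ) (d : ℤ) := Nat.isCoprime_iff_coprime.2 hdq.symm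
    have h9 : (q : ℤ) ∣ (a : ℤ) - a' := hcop.dvd_of_dvd_mul_right h8
    obtain ⟨w, hw⟩ := h9
    have h10 : a = a' := small q a a' w haq haq' (by rw [hw]; ring)
    subst h10
    have h11 : (h : ℤ) - h' = n * d := by
      have h12 : (q : ℤ) * ((h : ℤ) - h' - n * d) = 0 := by linear_combination h7
      rcases mul_eq_zero.1 h12 with h13 | h13
      · exact absurd h13 hqz
      · linarith
    exact ⟨rfl, small d h h' n ha.1 ha'.1 h11, rfl⟩
  have hsep : Sepd ((b : ℝ) ^ (m + 1))⁻¹ X := by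
    intro u hu v hv huv n
    rw [hX, Finset.mem_image] at hu hv
    obtain ⟨⟨d, h, a⟩, hda, rfl⟩ := hu
    obtain ⟨⟨d', h', a'⟩, hda', rfl⟩ := hv
    rw [hI, Finset.mem_sigma, Finset.mem_product] at hda hda'
    obtain ⟨hd, hh, ha⟩ := hda
    obtain ⟨hd', hh', ha'⟩ := hda'
    simp only [hφ] at hd hh ha hd' hh' ha' huv ⊢
    obtain ⟨hd1, -, -, hdM⟩ := hΔ d hd
    obtain ⟨hd1', -, -, hdM'⟩ := hΔ d' hd'
    have hd0 : (0 : ℝ) < d := by exact_mod_cast (by omega : 0 < d)
    have hd0' : (0 : ℝ) < d' := by exact_mod_cast (by omega : 0 < d')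
    have hz : ((a : ℤ) - a') * (d * d') + q * ((h : ℤ) * d' - h' * d) - n * (q * (d * d')) ≠ 0 := by
      intro h0
      obtain ⟨h2, h3, h4⟩ := hfrac d hd h hh a ha d' hd' h' hh' a' ha' n h0
      apply huv
      rw [h2, h3, h4]
    have e1 : (a : ℝ) / q + (h : ℝ) / d - ((a' : ℝ) / q + (h' : ℝ) / d') - n =
        ((((a : ℤ) - a') * (d * d') + q * ((h : ℤ) * d' - h' * d) - n * (q * (d * d')) : ℤ) : ℝ) /
          (q * (d * d')) := by
      push_cast
      field_simp
      ring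
    have h2 : (1 : ℝ) ≤ |((((a : ℤ) - a') * (d * d') + q * ((h : ℤ) * d' - h' * d) -
        n * (q * (d * d')) : ℤ) : ℝ)| := by
      rw [← Int.cast_abs]
      exact_mod_cast Int.one_le_abs hz
    rw [e1, abs_div, abs_of_pos (by positivity : (0 : ℝ) < q * (d * d'))]
    have h3 : q * (d * d') ≤ b ^ (m + 1) := by
      have h31 : q * (d * d') ≤ (q * d) * (q * d') := by
        calc q * (d * d') = 1 * (q * (d * d')) := (one_mul _).symm
          _ ≤ q * (q * (d * d')) := Nat.mul_le_mul_right _ hq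
          _ = _ := by ring
      refine h31.trans ?_
      by_contra hcon
      push Not at hcon
      have h4 : b ^ (m + 1) * b ^ (m + 1) < ((q * d) * (q * d')) * ((q * d) * (q * d')) :=
        Nat.mul_lt_mul'' hcon hcon
      have h5 : ((q * d) * (q * d')) * ((q * d) * (q * d')) = (q * d) ^ 2 * (q * d') ^ 2 := by ring
      have h6 : (q * d) ^ 2 * (q * d') ^ 2 ≤ b ^ (m + 1) * b ^ (m + 1) := Nat.mul_le_mul hdM hdM'
      omega
    have h4 : ((b : ℝ) ^ (m + 1))⁻¹ ≤ 1 / (q * (d * d')) := by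
      rw [inv_eq_one_div]
      apply one_div_le_one_div_of_le (by positivity)
      exact_mod_cast h3
    exact h4.trans (div_le_div_of_nonneg_right h2 (by positivity))
  have hmain := (Pool.Agent.Q263.MD.main hb (frs b) (frs_ne hb) (1 / (4 * (b : ℝ) ^ 2))
    (sig b ^ B) (1 + η) (by positivity) (by
      apply one_div_le_one_div_of_le (by positivity)
      have : (2 : ℝ) ≤ b := by exact_mod_cast hb
      nlinarith) frs_closed (frs_gap hb) (fun y => maj b y ^ B)
    (fun y => pow_nonneg (maj_pos hb y).le B) (fun y => pow_le_one₀ (maj_pos hb y).le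
      (maj_le_one hb y)) (pow_nonneg (sig_pos hb).le B) (fun y hy => by rw [maj_small y hy])
    (hBs.le.trans (min_le_left _ _)) (by
      have h1 := hBs.le.trans (min_le_right _ _)
      rw [le_div_iff₀ (by positivity)] at h1
      linarith) (m + 1)).2 X hsep
  refine le_trans (le_of_eq ?_) hmain
  unfold Sm
  rw [hX, Finset.sum_image, hI, Finset.sum_sigma]
  · refine Finset.sum_congr rfl fun d _ => ?_
    rw [Finset.sum_product]
    refine Finset.sum_congr rfl fun h _ => Finset.sum_congr rfl fun a _ => ?_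
    unfold Ph
    rw [← Finset.prod_pow]
  · rintro ⟨d, h, a⟩ hda ⟨d', h', a'⟩ hda' heq
    rw [Finset.mem_coe, hI, Finset.mem_sigma, Finset.mem_product] at hda hda'
    simp only [hφ] at heq
    obtain ⟨hd, hh, ha⟩ := hda
    obtain ⟨hd', hh', ha'⟩ := hda'
    obtain ⟨hd1, -, -, -⟩ := hΔ d hd
    obtain ⟨hd1', -, -, -⟩ := hΔ d' hd'
    have hd0 : (0 : ℝ) < d := by exact_mod_cast (by omega : 0 < d)
    have hd0' : (0 : ℝ) < d' := by exact_mod_cast (by omega : 0 < d')
    have h2 : ((a : ℝ) - a') * (d * d') + q * ((h : ℝ) * d' - h' * d) = 0 := by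
      field_simp at heq
      linarith
    have h3 : ((a : ℤ) - a') * (d * d') + q * ((h : ℤ) * d' - h' * d) = 0 := by exact_mod_cast h2
    obtain ⟨g1, g2, g3⟩ := hfrac d hd h hh a ha d' hd' h' hh' a' ha' 0 (by linarith)
    subst g1 g2 g3
    rfl

end Pool.Agent.Q263.SW
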