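import Mathlib
import Pool.Agent.Q263.SW.Lev
import Pool.Agent.Q263.SV.Tot

/-!
The total error for a residue class.
-/

set_option autoImplicit false

open Finset

namespace Pool.Agent.Q263.SW

open Pool.Agent.Q263.MD (sig sig_pos sig_lt frs frs_ne)
open Pool.Agent.Q263.SV (coprime_fac weight_le exp_split)

theorem total {b : ℕ} (hb : 2 ≤ b) (κ : ℕ) :
    ∃ (B : ℕ) (c : ℝ), 1 ≤ B ∧ 0 < c ∧ ∀ (q s : ℕ), 1 ≤ q → q ≤ b ^ s → ∃ C : ℝ, 0 < C ∧
      ∀ (k Y : ℕ) (P : Finset ℕ),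
      (∀ p ∈ P, p.Prime ∧ b < p ∧ κ ^ 2 ≤ p ∧ p.Coprime q) → 2 * (Nat.log b Y + 1 + s) * B ≤ k →
      ∑ T ∈ (P.powerset.filter (fun T : Finset ℕ => ∏ p ∈ T, p ≤ Y)).erase ∅,
        (∏ p ∈ T, (κ : ℝ) / (p : ℝ)) * G (Fm b k q) (∏ p ∈ T, p) ≤
          C * Real.exp (-(c * √(k : ℝ))) := by
  classical
  have hb0 : (0 : ℝ) < b := by exact_mod_cast (by omega : 0 < b)
  have hb1 : (1 : ℝ) < b := by exact_mod_cast (by omega : 1 < b)
  set u : ℝ := √√√(b : ℝ) with hu
  have hu1 : 1 < u := by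
    rw [hu]
    apply Real.lt_sqrt_of_sq_lt
    rw [one_pow]
    apply Real.lt_sqrt_of_sq_lt
    rw [one_pow]
    apply Real.lt_sqrt_of_sq_lt
    rw [one_pow]
    exact hb1
  have hu0 : 0 < u := by linarith
  have hu2 : u ^ 2 = √√(b : ℝ) := Real.sq_sqrt (Real.sqrt_nonneg _)
  have hu4 : u ^ 4 = √(b : ℝ) := by
    have : u ^ 4 = (u ^ 2) ^ 2 := by ring
    rw [this, hu2]
    exact Real.sq_sqrt (Real.sqrt_nonneg _)
  obtain ⟨η, hη0, hη1⟩ : ∃ η : ℝ, 0 < η ∧ 1 + η = u := ⟨u - 1, by linarith, by ring⟩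
  -- `(1 + η) ^ 2 = u ^ 2`
  obtain ⟨B, hB1, hlev⟩ := level hb η hη0
  obtain ⟨L, hL⟩ : ∃ L : ℝ, L = -Real.log (sig b) := ⟨_, rfl⟩
  have hL0 : 0 < L := by
    rw [hL]
    have := Real.log_neg (sig_pos hb) (sig_lt hb)
    linarith
  obtain ⟨lu, hlu⟩ : ∃ lu : ℝ, lu = Real.log u := ⟨_, rfl⟩
  have hlu0 : 0 < lu := by
    rw [hlu]
    exact Real.log_pos hu1
  obtain ⟨F, hF⟩ : ∃ F : ℝ, F = 2 * (frs b).card := ⟨_, rfl⟩
  have hF0 : 0 < F := by
    rw [hF]
    have : (0 : ℝ) < (frs b).card := by exact_mod_cast (frs_ne hb).card_pos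
    positivity
  refine ⟨B, √(2 * lu * L), hB1, by positivity, fun q s hq hqs =>
    ⟨F * u ^ 2 * u ^ (2 * s) * (Real.exp (L * (B + 1)) * (u * u ^ s)) * (1 - 1 / u)⁻¹, ?_, ?_⟩⟩
  · have h1 : 0 < 1 - 1 / u := by
      have : 1 / u < 1 := by
        rw [div_lt_one hu0]
        exact hu1
      linarith
    positivity
  intro k Y P hP hk
  set S := (P.powerset.filter (fun T : Finset ℕ => ∏ p ∈ T, p ≤ Y)).erase ∅ with hS
  set J := Nat.log b Y with hJ
  have hmem : ∀ T ∈ S, T ≠ ∅ ∧ T ⊆ P ∧ ∏ p ∈ T, p ≤ Y := by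
    intro T hT
    rw [hS, Finset.mem_erase, Finset.mem_filter, Finset.mem_powerset] at hT
    exact ⟨hT.1, hT.2.1, hT.2.2⟩
  rw [← Finset.sum_fiberwise_of_maps_to (t := range (J + 1))
    (g := fun T : Finset ℕ => Nat.log b (∏ p ∈ T, p)) (by
      intro T hT
      rw [Finset.mem_range]
      have h1 := (hmem T hT).2.2
      have h2 := Nat.log_mono_right (b := b) h1
      omega)]
  have hclass : ∀ j ∈ range (J + 1), ∑ T ∈ S.filter (fun T => Nat.log b (∏ p ∈ T, p) = j),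
      (∏ p ∈ T, (κ : ℝ) / (p : ℝ)) * G (Fm b k q) (∏ p ∈ T, p) ≤
      (F * u ^ 2 * u ^ (2 * s) * (Real.exp (L * (B + 1)) * (u * u ^ s))) *
        Real.exp (-(√(2 * lu * L) * √(k : ℝ))) * (1 / u) ^ j := by
    intro j hj
    rw [Finset.mem_range] at hj
    set Sj := S.filter (fun T => Nat.log b (∏ p ∈ T, p) = j) with hSj
    have hinj : ∀ T ∈ Sj, ∀ T' ∈ Sj, ∏ p ∈ T, p = ∏ p ∈ T', p → T = T' := by
      intro T hT T' hT' h
      have h1 := (hmem T (Finset.mem_filter.1 hT).1).2.1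
      have h2 := (hmem T' (Finset.mem_filter.1 hT').1).2.1
      rw [← Nat.primeFactors_prod (s := T) fun p hp => (hP p (h1 hp)).1,
        ← Nat.primeFactors_prod (s := T') fun p hp => (hP p (h2 hp)).1, h]
    have hstep1 : ∑ T ∈ Sj, (∏ p ∈ T, (κ : ℝ) / (p : ℝ)) * G (Fm b k q) (∏ p ∈ T, p) ≤
        ∑ T ∈ Sj, (1 / (u ^ 4) ^ j) * G (Fm b k q) (∏ p ∈ T, p) := by
      refine Finset.sum_le_sum fun T hT => ?_
      apply mul_le_mul_of_nonneg_right _ (G_nonneg (Fm_nonneg hb k q) _)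
      rw [hSj, Finset.mem_filter] at hT
      obtain ⟨hT1, hT2⟩ := hT
      obtain ⟨hTne, hTP, hTY⟩ := hmem T hT1
      refine (weight_le κ T fun p hp => ⟨(hP p (hTP hp)).1, (hP p (hTP hp)).2.2.1⟩).trans ?_
      apply one_div_le_one_div_of_le (by positivity)
      rw [hu4]
      apply Real.le_sqrt_of_sq_le
      have e1 : (√(b : ℝ) ^ j) ^ 2 = (b : ℝ) ^ j := by
        rw [← pow_mul, mul_comm, pow_mul, Real.sq_sqrt hb0.le]
      rw [e1]
      have h1 : b ^ j ≤ ∏ p ∈ T, p := by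
        rw [← hT2]
        apply Nat.pow_log_le_self
        exact (Finset.prod_pos fun p hp => (hP p (hTP hp)).1.pos).ne'
      exact_mod_cast h1
    have hstep2 : ∑ T ∈ Sj, G (Fm b k q) (∏ p ∈ T, p) =
        ∑ d ∈ Sj.image (fun T => ∏ p ∈ T, p), G (Fm b k q) d :=
      (Finset.sum_image (fun T hT T' hT' h => hinj T hT T' hT' h)).symm
    have hn : B ≤ k / (2 * (j + 1 + s)) := by
      rw [Nat.le_div_iff_mul_le (by omega)]
      calc B * (2 * (j + 1 + s)) ≤ B * (2 * (J + 1 + s)) := Nat.mul_le_mul_left B (by omega)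
        _ = 2 * (J + 1 + s) * B := by ring
        _ ≤ k := hk
    have hlev' := hlev q hq (2 * (j + 1 + s)) (k / (2 * (j + 1 + s))) k (Sj.image (fun T => ∏ p ∈ T, p))
      (by omega) hn (Nat.div_mul_le_self _ _) (by
        intro d hd
        rw [Finset.mem_image] at hd
        obtain ⟨T, hT, rfl⟩ := hd
        rw [hSj, Finset.mem_filter] at hT
        obtain ⟨hT1, hT2⟩ := hT
        obtain ⟨hTne, hTP, hTY⟩ := hmem T hT1
        refine ⟨?_, coprime_fac T fun p hp => ⟨(hP p (hTP hp)).1, (hP p (hTP hp)).2.1⟩,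
          Nat.Coprime.prod_left fun p hp => (hP p (hTP hp)).2.2.2, ?_⟩
        · obtain ⟨p, hp⟩ := Finset.nonempty_iff_ne_empty.2 hTne
          have h1 := Finset.dvd_prod_of_mem (fun p => p) hp
          have h2 := Nat.le_of_dvd (Finset.prod_pos fun p hp => (hP p (hTP hp)).1.pos) h1
          have h3 := (hP p (hTP hp)).1.one_lt
          omega
        · have h1 : ∏ p ∈ T, p < b ^ (j + 1) := by
            rw [← hT2]
            exact Nat.lt_pow_succ_log_self (by omega) _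
          calc (q * ∏ p ∈ T, p) ^ 2 ≤ (b ^ s * b ^ (j + 1)) ^ 2 :=
                Nat.pow_le_pow_left (Nat.mul_le_mul hqs h1.le) 2
            _ = b ^ (2 * (j + 1 + s)) := by rw [← pow_add, ← pow_mul]; congr 1; ring)
    rw [← Finset.mul_sum, hstep2] at hstep1
    refine hstep1.trans ?_
    rw [hη1, ← hF] at hlev'
    refine (mul_le_mul_of_nonneg_left hlev' (by positivity)).trans ?_
    -- numerics
    have hy : (0 : ℝ) < (j : ℝ) + 1 + s := by positivity
    have hsig : sig b ^ (k / (2 * (j + 1 + s)) - B) ≤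
        Real.exp (L * (B + 1)) * Real.exp (-(L * k / (2 * ((j : ℝ) + 1 + s)))) := by
      have e1 : sig b ^ (k / (2 * (j + 1 + s)) - B) =
          Real.exp (-(L * ((k / (2 * (j + 1 + s)) - B : ℕ) : ℝ))) := by
        rw [hL, neg_mul, neg_neg, ← Real.rpow_def_of_pos (sig_pos hb), Real.rpow_natCast]
      rw [e1, ← Real.exp_add]
      apply Real.exp_le_exp.2
      have h1 : (k : ℝ) / (2 * ((j : ℝ) + 1 + s)) - 1 ≤ ((k / (2 * (j + 1 + s)) : ℕ) : ℝ) := by
        have h2 := Nat.lt_mul_div_succ k (show 0 < 2 * (j + 1 + s) by omega)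
        have h3 : (k : ℝ) < 2 * ((j : ℝ) + 1 + s) * (((k / (2 * (j + 1 + s)) : ℕ) : ℝ) + 1) := by
          exact_mod_cast h2
        have h4 : (k : ℝ) / (2 * ((j : ℝ) + 1 + s)) < ((k / (2 * (j + 1 + s)) : ℕ) : ℝ) + 1 := by
          rw [div_lt_iff₀ (by positivity)]
          linarith
        linarith
      rw [Nat.cast_sub hn]
      have h2 : L * k / (2 * ((j : ℝ) + 1 + s)) = L * ((k : ℝ) / (2 * ((j : ℝ) + 1 + s))) := by ring
      rw [h2]
      nlinarith
    have huj : (1 / u) ^ j = (u * u ^ s) * Real.exp (-(lu * ((j : ℝ) + 1 + s))) := by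
      have e1 : Real.exp (-(lu * ((j : ℝ) + 1 + s))) = (1 / u) ^ (j + 1 + s) := by
        rw [hlu, ← neg_mul, ← Real.log_inv, ← one_div]
        have e2 : ((j : ℝ) + 1 + s) = ((j + 1 + s : ℕ) : ℝ) := by push_cast; ring
        rw [e2, ← Real.rpow_def_of_pos (by positivity), Real.rpow_natCast]
      rw [e1, pow_add, pow_add, pow_one]
      have hus : u ^ s ≠ 0 := by positivity
      rw [div_pow 1 u s, one_pow]
      field_simp
    have hmain : Real.exp (-(L * k / (2 * ((j : ℝ) + 1 + s)))) *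
        Real.exp (-(lu * ((j : ℝ) + 1 + s))) ≤ Real.exp (-(√(2 * lu * L) * √(k : ℝ))) := by
      rw [← Real.exp_add]
      apply Real.exp_le_exp.2
      have := exp_split lu L k hlu0 hL0 (Nat.cast_nonneg k) ((j : ℝ) + 1 + s) hy
      linarith
    have e3 : 1 / (u ^ 4) ^ j * (sig b ^ (k / (2 * (j + 1 + s)) - B) *
        (F * u ^ (2 * (j + 1 + s)))) =
        F * u ^ 2 * u ^ (2 * s) * (sig b ^ (k / (2 * (j + 1 + s)) - B) * (1 / u) ^ j) *
          (1 / u) ^ j := by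
      have e4 : u ^ (2 * (j + 1 + s)) = u ^ 2 * u ^ (2 * s) * u ^ j * u ^ j := by ring
      have e5 : (u ^ 4) ^ j = u ^ j * u ^ j * u ^ j * u ^ j := by ring
      rw [e4, e5, div_pow, one_pow]
      have hupos : 0 < u ^ j := by positivity
      field_simp
    rw [e3]
    apply mul_le_mul_of_nonneg_right _ (by positivity)
    calc F * u ^ 2 * u ^ (2 * s) * (sig b ^ (k / (2 * (j + 1 + s)) - B) * (1 / u) ^ j)
        ≤ F * u ^ 2 * u ^ (2 * s) * ((Real.exp (L * (B + 1)) *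
          Real.exp (-(L * k / (2 * ((j : ℝ) + 1 + s))))) *
          ((u * u ^ s) * Real.exp (-(lu * ((j : ℝ) + 1 + s))))) := by
          rw [← huj]
          apply mul_le_mul_of_nonneg_left _ (by positivity)
          exact mul_le_mul_of_nonneg_right hsig (by positivity)
      _ = F * u ^ 2 * u ^ (2 * s) * (Real.exp (L * (B + 1)) * (u * u ^ s)) *
          (Real.exp (-(L * k / (2 * ((j : ℝ) + 1 + s)))) *
            Real.exp (-(lu * ((j : ℝ) + 1 + s)))) := by ring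
      _ ≤ _ := mul_le_mul_of_nonneg_left hmain (by positivity)
  refine (Finset.sum_le_sum hclass).trans ?_
  rw [← Finset.mul_sum]
  have hgeo : ∑ j ∈ range (J + 1), (1 / u) ^ j ≤ (1 - 1 / u)⁻¹ := by
    have h1 : 1 / u < 1 := by
      rw [div_lt_one hu0]
      exact hu1
    exact (summable_geometric_of_lt_one (by positivity) h1).sum_le_tsum _
      (fun i _ => by positivity) |>.trans (le_of_eq (tsum_geometric_of_lt_one (by positivity) h1))
  calc F * u ^ 2 * u ^ (2 * s) * (Real.exp (L * (B + 1)) * (u * u ^ s)) *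
        Real.exp (-(√(2 * lu * L) * √(k : ℝ))) * ∑ j ∈ range (J + 1), (1 / u) ^ j
      ≤ F * u ^ 2 * u ^ (2 * s) * (Real.exp (L * (B + 1)) * (u * u ^ s)) *
        Real.exp (-(√(2 * lu * L) * √(k : ℝ))) * (1 - 1 / u)⁻¹ := mul_le_mul_of_nonneg_left hgeo (by positivity)
    _ = _ := by ring

end Pool.Agent.Q263.SW
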