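import Mathlib
import Pool.Agent.Q263.SW.Tot
import Pool.Agent.Q263.SV.Fin

/-!
The fundamental lemma of the sieve for the integers with restricted digits in a fixed residue class.
-/

set_option autoImplicit false

open Finset

namespace Pool.Agent.Q263.SW

open Pool.Agent.Q263.MD (Dig)
open Pool.Agent.Q263.SV (Pr mem_Pr Pr_empty mert decay choose_J)

/-- the integers with restricted digits in a residue class -/
def Sr (b k : ℕ) (D : Fin k → Finset ℕ) (q r : ℕ) : Finset ℕ :=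
  (Dig b k D).filter (fun m => m % q = r % q)

lemma Er_nonneg {f : ℝ → ℝ} (hf : ∀ x, 0 ≤ f x) (d : ℕ) : 0 ≤ Er f d :=
  Finset.sum_nonneg fun _ _ => hf _

/-- the local error -/
lemma local_err {b : ℕ} (hb : 2 ≤ b) {k : ℕ} (D : Fin k → Finset ℕ)
    (hD : ∀ i, ∀ d ∈ D i, d < b) (hD2 : ∀ i, 2 ≤ (D i).card) (q0 : ℕ) (hq1 : 1 ≤ q0) (r0 : ℕ)
    (κ : ℕ) (R : ℕ → Finset ℕ) (T : Finset ℕ) (hT : ∀ p ∈ T, p.Prime) (hR : ∀ p ∈ T, (∀ r ∈ R p, r < p) ∧ (R p).card ≤ κ) :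
    |(((Sr b k D q0 r0).filter (fun m => ∀ p ∈ T, m % p ∈ R p)).card : ℝ) -
      (Sr b k D q0 r0).card * ∏ p ∈ T, ((R p).card : ℝ) / p| ≤
      (Dig b k D).card * ((∏ p ∈ T, (κ : ℝ) / p) * Er (Fm b k q0) (∏ p ∈ T, p)) := by
  classical
  obtain ⟨q, hq⟩ : ∃ q : ℕ, q = ∏ p ∈ T, p := ⟨_, rfl⟩
  have hq0 : 0 < q := by
    rw [hq]
    exact Finset.prod_pos fun p hp => (hT p hp).pos
  have hq0' : (0 : ℝ) < q := by exact_mod_cast hq0
  set C := (range q).filter (fun n => ∀ p ∈ T, n % p ∈ R p) with hC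
  have hCc : C.card = ∏ p ∈ T, (R p).card := by
    have h := Pool.Agent.H373R2.T7.crt_card (fun p a => a ∈ R p) T hT
    rw [hC, hq, h]
    refine Finset.prod_congr rfl fun p hp => ?_
    congr 1
    ext a
    rw [Finset.mem_filter, Finset.mem_range]
    exact ⟨fun h => h.2, fun h => ⟨(hR p hp).1 a h, h⟩⟩
  have hsplit : (((Sr b k D q0 r0).filter (fun m => ∀ p ∈ T, m % p ∈ R p)).card : ℝ) =
      ∑ r ∈ C, (((Sr b k D q0 r0).filter (fun m => m % q = r)).card : ℝ) := by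
    rw [← Nat.cast_sum, Finset.card_eq_sum_card_fiberwise (f := fun m => m % q) (t := C)]
    · congr 1
      refine Finset.sum_congr rfl fun r hr => ?_
      congr 1
      ext m
      rw [hC, Finset.mem_filter, Finset.mem_range] at hr
      rw [Finset.mem_filter, Finset.mem_filter, Finset.mem_filter]
      constructor
      · rintro ⟨⟨h1, h2⟩, h3⟩
        exact ⟨h1, h3⟩
      · rintro ⟨h1, h3⟩
        refine ⟨⟨h1, fun p hp => ?_⟩, h3⟩
        have h4 := hr.2 p hp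
        rw [← h3, hq, Nat.mod_mod_of_dvd _ (Finset.dvd_prod_of_mem (fun p => p) hp)] at h4
        exact h4
    · intro m hm
      rw [Finset.mem_coe, Finset.mem_filter] at hm
      rw [Finset.mem_coe, hC, Finset.mem_filter, Finset.mem_range]
      refine ⟨Nat.mod_lt _ hq0, fun p hp => ?_⟩
      have h4 := hm.2 p hp
      rw [hq, Nat.mod_mod_of_dvd _ (Finset.dvd_prod_of_mem (fun p => p) hp)]
      exact h4
  have hprod : ∏ p ∈ T, ((R p).card : ℝ) / p = (C.card : ℝ) / q := by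
    rw [Finset.prod_div_distrib, hCc, hq]
    push_cast
    rfl
  have hprodκ : ∏ p ∈ T, (κ : ℝ) / p = (∏ p ∈ T, (κ : ℝ)) / q := by
    rw [Finset.prod_div_distrib, hq]
    push_cast
    rfl
  rw [hprod, hsplit, ← hq, hprodκ]
  have h1 : ∑ r ∈ C, (((Sr b k D q0 r0).filter (fun m => m % q = r)).card : ℝ) -
      (Sr b k D q0 r0).card * ((C.card : ℝ) / q) =
      ∑ r ∈ C, ((((Sr b k D q0 r0).filter (fun m => m % q = r)).card : ℝ) - (Sr b k D q0 r0).card / q) := by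
    rw [Finset.sum_sub_distrib, Finset.sum_const, nsmul_eq_mul]
    ring
  rw [h1]
  refine (Finset.abs_sum_le_sum_abs _ _).trans ?_
  have h2 : ∀ r ∈ C, |(((Sr b k D q0 r0).filter (fun m => m % q = r)).card : ℝ) - (Sr b k D q0 r0).card / q| ≤
      (Dig b k D).card * (Er (Fm b k q0) q / q) := by
    intro r hr
    rw [hC, Finset.mem_filter, Finset.mem_range] at hr
    exact class_err hb D hD hD2 q0 hq1 r0 q hq0 r hr.1
  refine (Finset.sum_le_sum h2).trans ?_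
  rw [Finset.sum_const, nsmul_eq_mul]
  have h3 : (C.card : ℝ) ≤ ∏ p ∈ T, (κ : ℝ) := by
    rw [hCc]
    push_cast
    exact Finset.prod_le_prod (fun _ _ => Nat.cast_nonneg _) fun p hp => by
      exact_mod_cast (hR p hp).2
  have h4 : 0 ≤ ((Dig b k D).card : ℝ) * (Er (Fm b k q0) q / q) := by
    have := Er_nonneg (Fm_nonneg hb k q0) q
    positivity
  calc (C.card : ℝ) * ((Dig b k D).card * (Er (Fm b k q0) q / q)) ≤
        (∏ p ∈ T, (κ : ℝ)) * ((Dig b k D).card * (Er (Fm b k q0) q / q)) :=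
          mul_le_mul_of_nonneg_right h3 h4
    _ = _ := by ring

/-- **Fundamental lemma of the sieve for integers with restricted digits in a residue class.** -/
theorem sieve {b : ℕ} (hb : 2 ≤ b) (κ : ℕ) (ε : ℝ) (hε : 0 < ε) :
    ∃ K₀ L : ℕ, 1 ≤ L ∧ ∀ K : ℕ, K₀ ≤ K → ∀ q : ℕ, 1 ≤ q → (∀ p, p.Prime → p ∣ q → p ≤ K) →
      ∀ ζ : ℝ, 0 < ζ → ∃ k₀ : ℕ, ∀ k : ℕ, k₀ ≤ k → ∀ D : Fin k → Finset ℕ,
      (∀ i, ∀ d ∈ D i, d < b) → (∀ i, 2 ≤ (D i).card) → ∀ z : ℕ, z ^ L ≤ b ^ k →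
      ∀ r : ℕ, ζ * (Dig b k D).card ≤ (Sr b k D q r).card →
      ∀ R : ℕ → Finset ℕ, (∀ p, p.Prime → K < p → p ≤ z → (∀ r ∈ R p, r < p) ∧ (R p).card ≤ κ) →
      |(((Sr b k D q r).filter (fun m => ∀ p ∈ Pr K z, m % p ∉ R p)).card : ℝ) -
        (Sr b k D q r).card * ∏ p ∈ Pr K z, (1 - ((R p).card : ℝ) / p)| ≤
      ε * ((Sr b k D q r).card * ∏ p ∈ Pr K z, (1 - ((R p).card : ℝ) / p)) := by
  classical
  obtain ⟨C0, hC0, hF⟩ := Pool.Agent.H20R2.fLem κ
  obtain ⟨B, c, hB1, hc, htot0⟩ := total hb κ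
  obtain ⟨M, hM, hmert⟩ := mert
  obtain ⟨n1, hn1⟩ := exists_pow_lt_of_lt_one (show 0 < ε / 2 by positivity)
    (show (1 / 2 : ℝ) < 1 by norm_num)
  set b' := C0 + n1 with hb'
  have hhalf : (1 / 2 : ℝ) ^ b' ≤ ε / 2 := by
    refine le_trans ?_ hn1.le
    exact pow_le_pow_of_le_one (by norm_num) (by norm_num) (by omega)
  refine ⟨C0 + b + κ ^ 2 + 2 * κ + 2, 2 * (2 * B * (4 * (C0 * b') + 1)), ?_, ?_⟩
  · have : 1 ≤ 2 * B := by omega
    exact Nat.one_le_iff_ne_zero.2 (by positivity)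
  intro K hK q hq hqK ζ hζ
  obtain ⟨C, hC, htot⟩ := htot0 q q hq (Nat.lt_pow_self (by omega)).le
  obtain ⟨k1, hk1⟩ := decay (3 * κ + 1) c
    ((6 * b) ^ (3 * κ + 1) * Real.exp (3 * κ * M) * C / ζ) (ε / 2) hc (by positivity)
    (by positivity)
  refine ⟨k1 + 4 * q * B + 1, ?_⟩
  intro k hk D hD hD2 z hz' r0 hr0 R hR
  rcases Nat.lt_or_ge K z with hzK | hzK
  swap
  · rw [Pr_empty hzK]
    simp only [Finset.notMem_empty, false_implies, implies_true, Finset.filter_true,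
      Finset.prod_empty, mul_one, sub_self, abs_zero]
    positivity
  obtain ⟨L, hL⟩ : ∃ L, L = 2 * B * (4 * (C0 * b') + 1) := ⟨_, rfl⟩
  rw [← hL] at hz'
  have hL1 : 1 ≤ L := by rw [hL]; exact Nat.one_le_iff_ne_zero.2 (by positivity)
  have hκ2 : κ ^ 2 < K := by omega
  have hbK : b < K := by omega
  have hz2 : 2 ≤ z := by omega
  obtain ⟨J, hJ1, hJ2⟩ := choose_J z hz2
  have hzk : z ≤ b ^ k := (Nat.le_self_pow (by omega) z).trans hz'
  have hkk1 : k1 ≤ k := by omega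
  have hk0 : 1 ≤ k := by omega
  have hk0' : (1 : ℝ) ≤ k := by exact_mod_cast hk0
  -- the level
  set Y := (2 ^ 2 ^ J) ^ (C0 * b') with hY
  have hY1 : 1 ≤ Y := Nat.one_le_pow _ _ (by positivity)
  have hYz : Y ≤ z ^ (4 * (C0 * b')) := by
    rw [hY, pow_mul z]
    exact Nat.pow_le_pow_left hJ2 _
  have hlevel0 : 2 * (2 * (Nat.log b Y + 1) * B) ≤ k := by
    rw [← Nat.pow_le_pow_iff_right (show 1 < b by omega)]
    refine le_trans ?_ hz'
    have h1 : b ^ Nat.log b Y ≤ Y := Nat.pow_log_le_self _ (by omega)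
    calc b ^ (2 * (2 * (Nat.log b Y + 1) * B)) = ((b ^ Nat.log b Y * b) ^ (2 * B)) ^ 2 := by
          rw [← pow_succ, ← pow_mul, ← pow_mul]
          congr 1
          ring
      _ ≤ ((z ^ (4 * (C0 * b')) * z) ^ (2 * B)) ^ 2 :=
          Nat.pow_le_pow_left (Nat.pow_le_pow_left (Nat.mul_le_mul (h1.trans hYz) (by omega)) _) _
      _ = z ^ (2 * L) := by
          rw [← pow_succ, ← pow_mul, ← pow_mul, hL]
          congr 1
          ring
  have hlevel : 2 * (Nat.log b Y + 1 + q) * B ≤ k := by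
    have h1 : 2 * (Nat.log b Y + 1 + q) * B = 2 * (Nat.log b Y + 1) * B + 2 * q * B := by ring
    have h2 : 4 * q * B = 2 * (2 * q * B) := by ring
    omega
  -- bound for `J`
  have hJk : 2 ^ J ≤ 4 * k * b := by
    rw [← Nat.pow_le_pow_iff_right (show 1 < 2 by norm_num)]
    calc 2 ^ 2 ^ J ≤ z ^ 4 := hJ2
      _ ≤ (b ^ k) ^ 4 := Nat.pow_le_pow_left hzk 4
      _ ≤ ((2 ^ b) ^ k) ^ 4 := Nat.pow_le_pow_left (Nat.pow_le_pow_left Nat.lt_two_pow_self.le k) 4
      _ = 2 ^ (4 * k * b) := by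
          rw [← pow_mul, ← pow_mul]
          congr 1
          ring
  have hJk' : ((2 : ℝ) ^ J) ≤ 6 * b * k := by
    have h1 : ((2 : ℝ) ^ J) ≤ 4 * k * b := by exact_mod_cast hJk
    have h2 : (0 : ℝ) ≤ k * b := by positivity
    linarith
  have hJk2 : (J : ℝ) + 2 ≤ 6 * b * k := by
    have h1 : ((2 : ℝ) ^ J) ≤ 4 * k * b := by exact_mod_cast hJk
    have h2 : (J : ℝ) ≤ 2 ^ J := by exact_mod_cast Nat.lt_two_pow_self.le
    have h3 : (2 : ℝ) ≤ 2 * (k * b) := by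
      have h4 : (1 : ℝ) ≤ b := by exact_mod_cast (by omega : 1 ≤ b)
      nlinarith
    linarith
  set P := Pr K z with hP
  set W := ∏ p ∈ P, (1 - ((R p).card : ℝ) / p) with hW
  have hPp : ∀ p ∈ P, p.Prime ∧ K < p ∧ p ≤ z := fun p hp => mem_Pr.1 hp
  have hPR : ∀ p ∈ P, (∀ r ∈ R p, r < p) ∧ (R p).card ≤ κ := fun p hp =>
    hR p (hPp p hp).1 (hPp p hp).2.1 (hPp p hp).2.2
  have hp2 : ∀ p ∈ P, (0 : ℝ) < p ∧ 2 * (κ : ℝ) ≤ p := by
    intro p hp
    obtain ⟨h1, h2, h3⟩ := hPp p hp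
    refine ⟨by exact_mod_cast h1.pos, ?_⟩
    exact_mod_cast (by omega : 2 * κ ≤ p)
  -- apply the fundamental lemma
  have hmain := hF b' J K P (fun p => ((R p).card : ℝ) / p) (by omega) (by omega)
    (fun p hp => ⟨(hPp p hp).1, (hPp p hp).2.1, (hPp p hp).2.2.trans hJ1⟩)
    (fun p hp => by
      obtain ⟨h1, h2⟩ := hp2 p hp
      have h3 : (1 : ℝ) < p := by exact_mod_cast (hPp p hp).1.one_lt
      refine ⟨by positivity, ?_⟩
      have h4 : ((R p).card : ℝ) ≤ κ := by exact_mod_cast (hPR p hp).2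
      calc ((R p).card : ℝ) / p ≤ κ / p := div_le_div_of_nonneg_right h4 h1.le
        _ ≤ κ / ((p : ℝ) - 1) := by
            apply div_le_div_of_nonneg_left (Nat.cast_nonneg κ) (by linarith) (by linarith))
    (Sr b k D q r0) (fun _ => 1) (fun p m => m % p ∈ R p) ((Sr b k D q r0).card : ℝ)
    (fun T => (Dig b k D).card * ((∏ p ∈ T, (κ : ℝ) / p) * Er (Fm b k q) (∏ p ∈ T, p)))
    (fun _ _ => zero_le_one) (Nat.cast_nonneg _)
    (fun T hT hTY => by
      have h1 := local_err hb D hD hD2 q hq r0 κ R T (fun p hp => (hPp p (hT hp)).1)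
        (fun p hp => hPR p (hT hp))
      have e : ∑ m ∈ (Sr b k D q r0).filter (fun m => ∀ p ∈ T, m % p ∈ R p), (1 : ℝ) =
          (((Sr b k D q r0).filter (fun m => ∀ p ∈ T, m % p ∈ R p)).card : ℝ) := by
        rw [Finset.sum_const, nsmul_eq_mul, mul_one]
      rw [← e] at h1
      refine le_trans (le_of_eq ?_) h1
      apply congrArg
      apply congrArg (· - _)
      apply Finset.sum_congr _ (fun _ _ => rfl)
      ext m
      simp only [Finset.mem_filter])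
  have hlhs : ∑ m ∈ (Sr b k D q r0).filter (fun m => ∀ p ∈ P, ¬ (m % p ∈ R p)), (1 : ℝ) =
      (((Sr b k D q r0).filter (fun m => ∀ p ∈ P, m % p ∉ R p)).card : ℝ) := by
    rw [Finset.sum_const, nsmul_eq_mul, mul_one]
  rw [← hlhs]
  refine (le_of_eq (by
    apply congrArg
    apply congrArg (· - _)
    apply Finset.sum_congr _ (fun _ _ => rfl)
    ext m
    simp only [Finset.mem_filter])).trans (hmain.trans ?_)
  rw [← Finset.mul_sum]
  have hDc : (0 : ℝ) ≤ (Dig b k D).card := Nat.cast_nonneg _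
  have hDr : (0 : ℝ) ≤ (Sr b k D q r0).card := Nat.cast_nonneg _
  have hW0 : 0 < W := by
    apply Finset.prod_pos
    intro p hp
    obtain ⟨h1, h2⟩ := hp2 p hp
    have h4 : ((R p).card : ℝ) ≤ κ := by exact_mod_cast (hPR p hp).2
    have h5 : ((R p).card : ℝ) / p ≤ 1 / 2 := by
      rw [div_le_iff₀ h1]
      linarith
    linarith
  -- the error
  have hE := (sum_Er_le (Fm_nonneg hb k q) P (fun p hp => (hPp p hp).1) (κ : ℝ)
    (Nat.cast_nonneg κ) Y).trans
    (mul_le_mul_of_nonneg_left (htot k Y P (fun p hp => ⟨(hPp p hp).1,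
      by have := (hPp p hp).2.1; omega, by have := (hPp p hp).2.1; omega,
      ((hPp p hp).1.coprime_iff_not_dvd).2 fun h => by
        have h1 := hqK p (hPp p hp).1 h
        have h2 := (hPp p hp).2.1
        omega⟩) hlevel)
      (Finset.prod_nonneg fun p _ => by positivity))
  have hS := hmert K z J hJ1
  have hprod1 : ∏ p ∈ P, (1 + (κ : ℝ) / p) ≤ Real.exp (κ * ∑ p ∈ P, (1 : ℝ) / p) := by
    rw [Finset.mul_sum, Real.exp_sum]
    apply Finset.prod_le_prod (fun p _ => by positivity)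
    intro p _
    have := Real.add_one_le_exp ((κ : ℝ) * (1 / p))
    have e : (κ : ℝ) / p = κ * (1 / p) := by ring
    rw [e]
    linarith
  have hprod2 : 1 ≤ W * Real.exp (2 * κ * ∑ p ∈ P, (1 : ℝ) / p) := by
    rw [Finset.mul_sum, Real.exp_sum, hW, ← Finset.prod_mul_distrib]
    calc (1 : ℝ) = ∏ _p ∈ P, (1 : ℝ) := by rw [Finset.prod_const_one]
      _ ≤ _ := by
        apply Finset.prod_le_prod (fun _ _ => zero_le_one)
        intro p hp
        obtain ⟨h1, h2⟩ := hp2 p hp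
        have h4 : ((R p).card : ℝ) ≤ κ := by exact_mod_cast (hPR p hp).2
        have h5 : ((R p).card : ℝ) / p ≤ κ / p := div_le_div_of_nonneg_right h4 h1.le
        obtain ⟨x, hx⟩ : ∃ x : ℝ, x = (κ : ℝ) / p := ⟨_, rfl⟩
        have hx0 : 0 ≤ x := by rw [hx]; positivity
        have hx1 : x ≤ 1 / 2 := by
          rw [hx, div_le_iff₀ h1]
          linarith
        have e : 2 * (κ : ℝ) * (1 / p) = 2 * x := by rw [hx]; ring
        rw [e]
        have h6 := Real.add_one_le_exp (2 * x)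
        rw [← hx] at h5
        calc (1 : ℝ) ≤ (1 - x) * (2 * x + 1) := by nlinarith
          _ ≤ (1 - ((R p).card : ℝ) / p) * Real.exp (2 * x) := by
              apply mul_le_mul (by linarith) h6 (by linarith) (by linarith)
  have hexp : Real.exp (3 * κ * ∑ p ∈ P, (1 : ℝ) / p) ≤ (6 * b * k) ^ (3 * κ) * Real.exp (3 * κ * M) := by
    calc Real.exp (3 * κ * ∑ p ∈ P, (1 : ℝ) / p) ≤ Real.exp (3 * κ * (Real.log (2 ^ J) + M)) := by
          apply Real.exp_le_exp.2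
          exact mul_le_mul_of_nonneg_left hS (by positivity)
      _ = ((2 : ℝ) ^ J) ^ (3 * κ) * Real.exp (3 * κ * M) := by
          rw [mul_add, Real.exp_add]
          congr 1
          have e : (3 : ℝ) * κ * Real.log (2 ^ J) = ((3 * κ : ℕ) : ℝ) * Real.log (2 ^ J) := by
            push_cast
            ring
          rw [e, ← Real.log_pow, Real.exp_log (by positivity)]
      _ ≤ _ := by
          apply mul_le_mul_of_nonneg_right _ (Real.exp_nonneg _)
          exact pow_le_pow_left₀ (by positivity) hJk' _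
  have hfin : ((J : ℝ) + 2) * ((∏ p ∈ P, (1 + (κ : ℝ) / p)) * (C * Real.exp (-(c * √(k : ℝ))))) ≤
      ζ * (ε / 2 * W) := by
    have h1 : ((J : ℝ) + 2) * ((∏ p ∈ P, (1 + (κ : ℝ) / p)) * (C * Real.exp (-(c * √(k : ℝ))))) ≤
        (6 * b * k) * (Real.exp (κ * ∑ p ∈ P, (1 : ℝ) / p) * (C * Real.exp (-(c * √(k : ℝ))))) := by
      apply mul_le_mul hJk2 _ (by
        apply mul_nonneg (Finset.prod_nonneg fun p _ => by positivity)
        positivity) (by positivity)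
      exact mul_le_mul_of_nonneg_right hprod1 (by positivity)
    have h2 := hk1 k hkk1
    have h3 : (6 * b * k) * (Real.exp (κ * ∑ p ∈ P, (1 : ℝ) / p) * (C * Real.exp (-(c * √(k : ℝ))))) *
        Real.exp (2 * κ * ∑ p ∈ P, (1 : ℝ) / p) ≤ ζ * (ε / 2) := by
      have e1 : Real.exp (3 * κ * ∑ p ∈ P, (1 : ℝ) / p) =
          Real.exp (κ * ∑ p ∈ P, (1 : ℝ) / p) * Real.exp (2 * κ * ∑ p ∈ P, (1 : ℝ) / p) := by
        rw [← Real.exp_add]
        congr 1
        ring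
      calc (6 * b * k) * (Real.exp (κ * ∑ p ∈ P, (1 : ℝ) / p) * (C * Real.exp (-(c * √(k : ℝ))))) *
            Real.exp (2 * κ * ∑ p ∈ P, (1 : ℝ) / p)
          = (6 * b * k) * (C * Real.exp (-(c * √(k : ℝ)))) *
            Real.exp (3 * κ * ∑ p ∈ P, (1 : ℝ) / p) := by rw [e1]; ring
        _ ≤ (6 * b * k) * (C * Real.exp (-(c * √(k : ℝ)))) *
            ((6 * b * k) ^ (3 * κ) * Real.exp (3 * κ * M)) :=
              mul_le_mul_of_nonneg_left hexp (by positivity)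
        _ = ζ * ((6 * b) ^ (3 * κ + 1) * Real.exp (3 * κ * M) * C / ζ * (k : ℝ) ^ (3 * κ + 1) *
            Real.exp (-(c * √(k : ℝ)))) := by
            rw [mul_pow (6 * (b : ℝ)) (k : ℝ) (3 * κ)]
            field_simp
            ring
        _ ≤ ζ * (ε / 2) := mul_le_mul_of_nonneg_left h2 hζ.le
    refine h1.trans ?_
    set X := (6 * b * k) * (Real.exp (κ * ∑ p ∈ P, (1 : ℝ) / p) * (C * Real.exp (-(c * √(k : ℝ))))) with hX
    have hX0 : 0 ≤ X := by positivity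
    calc X = X * 1 := by ring
      _ ≤ X * (W * Real.exp (2 * κ * ∑ p ∈ P, (1 : ℝ) / p)) :=
          mul_le_mul_of_nonneg_left hprod2 hX0
      _ = X * Real.exp (2 * κ * ∑ p ∈ P, (1 : ℝ) / p) * W := by ring
      _ ≤ ζ * (ε / 2) * W := mul_le_mul_of_nonneg_right h3 hW0.le
      _ = _ := by ring
  have hfin2 : ((J : ℝ) + 2) * ((Dig b k D).card * ∑ T ∈ P.powerset.filter
      (fun T : Finset ℕ => ∏ p ∈ T, p ≤ Y), (∏ p ∈ T, (κ : ℝ) / p) * Er (Fm b k q) (∏ p ∈ T, p)) ≤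
      (Sr b k D q r0).card * (ε / 2 * W) := by
    calc ((J : ℝ) + 2) * ((Dig b k D).card * ∑ T ∈ P.powerset.filter
          (fun T : Finset ℕ => ∏ p ∈ T, p ≤ Y), (∏ p ∈ T, (κ : ℝ) / p) * Er (Fm b k q) (∏ p ∈ T, p))
        = (Dig b k D).card * (((J : ℝ) + 2) * ∑ T ∈ P.powerset.filter
          (fun T : Finset ℕ => ∏ p ∈ T, p ≤ Y), (∏ p ∈ T, (κ : ℝ) / p) * Er (Fm b k q) (∏ p ∈ T, p)) := by
          ring
      _ ≤ (Dig b k D).card * (((J : ℝ) + 2) *
          ((∏ p ∈ P, (1 + (κ : ℝ) / p)) * (C * Real.exp (-(c * √(k : ℝ)))))) := by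
          apply mul_le_mul_of_nonneg_left _ hDc
          exact mul_le_mul_of_nonneg_left hE (by positivity)
      _ ≤ (Dig b k D).card * (ζ * (ε / 2 * W)) := mul_le_mul_of_nonneg_left hfin hDc
      _ = (ζ * (Dig b k D).card) * (ε / 2 * W) := by ring
      _ ≤ _ := mul_le_mul_of_nonneg_right hr0 (by positivity)
  have h5 : (1 / 2 : ℝ) ^ b' * ((Sr b k D q r0).card * W) ≤ ε / 2 * ((Sr b k D q r0).card * W) :=
    mul_le_mul_of_nonneg_right hhalf (mul_nonneg hDr hW0.le)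
  calc _ ≤ ε / 2 * ((Sr b k D q r0).card * W) + (Sr b k D q r0).card * (ε / 2 * W) :=
      add_le_add h5 hfin2
    _ = _ := by ring

end Pool.Agent.Q263.SW
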