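import Mathlib
import Pool.Agent.Q263.SW.Fin

/-!
Integers with restricted digits: equidistribution modulo a fixed integer coprime to the base.
-/

set_option autoImplicit false

open Finset

namespace Pool.Agent.Q263.SW

open Pool.Agent.Q263.MD (Dig nb nb_spec nb_digits card_Dig char_sum)

lemma one_add_lt {Q : ℕ} [NeZero Q] (x : ZMod Q) (hx : x ≠ 0) :
    ‖(1 : ℂ) + ZMod.stdAddChar x‖ < 2 := by
  have h1 : ‖(ZMod.stdAddChar x : ℂ)‖ = 1 := AddChar.norm_apply _ x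
  have h2 : (ZMod.stdAddChar x : ℂ) ≠ 1 := by
    intro h
    apply hx
    have h3 : (ZMod.stdAddChar x : ℂ) = ZMod.stdAddChar (0 : ZMod Q) := by
      rw [h, AddChar.map_zero_eq_one]
    exact ZMod.injective_stdAddChar h3
  set ζ : ℂ := ZMod.stdAddChar x with hζ
  have h4 : ‖(1 : ℂ) + ζ‖ ^ 2 + ‖(1 : ℂ) - ζ‖ ^ 2 = 4 := by
    have := parallelogram_law_with_norm ℝ (1 : ℂ) ζ
    rw [h1, norm_one] at this
    nlinarith
  have h5 : 0 < ‖(1 : ℂ) - ζ‖ := norm_pos_iff.2 (sub_ne_zero.2 h2.symm)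
  nlinarith [norm_nonneg ((1 : ℂ) + ζ), sq_nonneg (‖(1 : ℂ) + ζ‖ - 2)]

lemma delta (Q : ℕ) [NeZero Q] : ∃ δ : ℝ, 0 < δ ∧ δ ≤ 1 ∧ ∀ x : ZMod Q, x ≠ 0 →
    ‖(1 : ℂ) + ZMod.stdAddChar x‖ ≤ 2 - δ := by
  classical
  obtain ⟨δ, h1, h2⟩ : ∃ δ : ℝ, 0 < δ ∧ ∀ x ∈ (Finset.univ : Finset (ZMod Q)).filter (fun x => x ≠ 0),
      δ ≤ 2 - ‖(1 : ℂ) + ZMod.stdAddChar x‖ := by
    rcases ((Finset.univ : Finset (ZMod Q)).filter (fun x => x ≠ 0)).eq_empty_or_nonempty with h | h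
    · exact ⟨1, one_pos, by rw [h]; simp⟩
    · obtain ⟨y, hy, hy2⟩ := Finset.exists_min_image _
        (fun x : ZMod Q => 2 - ‖(1 : ℂ) + ZMod.stdAddChar x‖) h
      refine ⟨2 - ‖(1 : ℂ) + ZMod.stdAddChar y‖, ?_, hy2⟩
      rw [Finset.mem_filter] at hy
      have := one_add_lt y hy.2
      linarith
  refine ⟨min δ 1, lt_min h1 one_pos, min_le_right _ _, fun x hx => ?_⟩
  have h3 := h2 x (by rw [Finset.mem_filter]; exact ⟨Finset.mem_univ _, hx⟩)
  have h4 := min_le_left δ 1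
  linarith

/-- a digit sum with a good pair of digits -/
lemma pair_sum {Q : ℕ} [NeZero Q] {δ : ℝ} (hδ : ∀ x : ZMod Q, x ≠ 0 →
    ‖(1 : ℂ) + ZMod.stdAddChar x‖ ≤ 2 - δ) (D : Finset ℕ) (c c' : ℕ) (hc : c ∈ D) (hc' : c' ∈ D)
    (y : ZMod Q) (hy : ((c' : ZMod Q) - c) * y ≠ 0) :
    ‖∑ e ∈ D, (ZMod.stdAddChar ((e : ZMod Q) * y) : ℂ)‖ ≤ D.card - δ := by
  classical
  have hne : c' ≠ c := by
    rintro rfl
    simp at hy
  have h1 : ∀ z : ZMod Q, ‖(ZMod.stdAddChar z : ℂ)‖ = 1 := fun z => AddChar.norm_apply _ z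
  have hc'' : c' ∈ D.erase c := Finset.mem_erase.2 ⟨hne, hc'⟩
  rw [← Finset.add_sum_erase _ _ hc, ← Finset.add_sum_erase _ _ hc'', ← add_assoc]
  have h2 : (ZMod.stdAddChar ((c : ZMod Q) * y) : ℂ) + ZMod.stdAddChar ((c' : ZMod Q) * y) =
      ZMod.stdAddChar ((c : ZMod Q) * y) * (1 + ZMod.stdAddChar (((c' : ZMod Q) - (c : ZMod Q)) * y)) := by
    rw [mul_add, mul_one, ← AddChar.map_add_eq_mul]
    congr 2
    ring
  have h3 : ‖∑ e ∈ (D.erase c).erase c', (ZMod.stdAddChar ((e : ZMod Q) * y) : ℂ)‖ ≤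
      ((D.erase c).erase c').card := by
    refine (norm_sum_le _ _).trans ?_
    rw [Finset.sum_congr rfl (fun e _ => h1 _), Finset.sum_const, nsmul_eq_mul, mul_one]
  have h4 : (((D.erase c).erase c').card : ℝ) = D.card - 2 := by
    rw [Finset.card_erase_of_mem hc'', Finset.card_erase_of_mem hc]
    have : 2 ≤ D.card := Finset.one_lt_card.2 ⟨c, hc, c', hc', hne.symm⟩
    rw [Nat.cast_sub (by omega), Nat.cast_sub (by omega)]
    push_cast
    ring
  refine (norm_add_le _ _).trans ?_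
  rw [h2, norm_mul, h1, one_mul]
  have h5 := hδ _ hy
  linarith

/-- the exponential sum -/
lemma dig_char {b : ℕ} {k : ℕ} (D : Fin k → Finset ℕ) (hD : ∀ i, ∀ d ∈ D i, d < b) {Q : ℕ} [NeZero Q]
    (hbQ : Nat.Coprime b Q) {δ : ℝ} (hδ1 : δ ≤ 1) (hδ0 : 0 < δ) (hδ : ∀ x : ZMod Q, x ≠ 0 →
    ‖(1 : ℂ) + ZMod.stdAddChar x‖ ≤ 2 - δ) (I : Finset (Fin k))
    (hI : ∀ i ∈ I, ∃ c ∈ D i, ∃ c' ∈ D i, c < c' ∧ Nat.Coprime (c' - c) Q) (x : ZMod Q) (hx : x ≠ 0) :
    ‖∑ m ∈ Dig b k D, (ZMod.stdAddChar ((m : ZMod Q) * x) : ℂ)‖ ≤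
      (Dig b k D).card * (1 - δ / b) ^ I.card := by
  classical
  have h1 : ∑ m ∈ Dig b k D, (ZMod.stdAddChar ((m : ZMod Q) * x) : ℂ) =
      ∏ i, ∑ c ∈ D i, (ZMod.stdAddChar ((c : ZMod Q) * (x * (b : ZMod Q) ^ (i : ℕ))) : ℂ) := by
    rw [sum_Dig D hD, Finset.prod_univ_sum]
    refine Finset.sum_congr rfl fun d _ => ?_
    rw [← char_sum]
    congr 1
    unfold nb
    push_cast
    rw [Finset.sum_mul]
    refine Finset.sum_congr rfl fun i _ => ?_
    ring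
  rw [h1, norm_prod, card_Dig D hD]
  push_cast
  have h2 : (1 - δ / b) ^ I.card = ∏ i : Fin k, (if i ∈ I then (1 - δ / b) else (1 : ℝ)) := by
    rw [Finset.prod_ite_mem, Finset.univ_inter, Finset.prod_const]
  rw [h2, ← Finset.prod_mul_distrib]
  refine Finset.prod_le_prod (fun i _ => norm_nonneg _) fun i _ => ?_
  split_ifs with hi
  · obtain ⟨c, hc, c', hc', hcc, hcop⟩ := hI i hi
    have hy : ((c' : ZMod Q) - c) * (x * (b : ZMod Q) ^ (i : ℕ)) ≠ 0 := by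
      have hu1 : IsUnit ((c' : ZMod Q) - c) := by
        have : ((c' : ZMod Q) - c) = ((c' - c : ℕ) : ZMod Q) := by
          rw [Nat.cast_sub hcc.le]
        rw [this]
        exact (ZMod.isUnit_iff_coprime _ _).2 hcop
      have hu2 : IsUnit ((b : ZMod Q) ^ (i : ℕ)) := ((ZMod.isUnit_iff_coprime _ _).2 hbQ).pow _
      intro h
      rw [hu1.mul_right_eq_zero, hu2.mul_left_eq_zero] at h
      exact hx h
    refine (pair_sum hδ (D i) c c' hc hc' _ hy).trans ?_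
    have hcb : 0 < b := lt_of_le_of_lt (Nat.zero_le _) (hD i c hc)
    have hb0 : (0 : ℝ) < b := by exact_mod_cast hcb
    have hcard : (D i).card ≤ b := by
      have : D i ⊆ Finset.range b := fun d hd => Finset.mem_range.2 (hD i d hd)
      simpa using Finset.card_le_card this
    have h5 : ((D i).card : ℝ) ≤ b := by exact_mod_cast hcard
    have h6 : ((D i).card : ℝ) * (δ / b) ≤ δ := by
      rw [mul_div_assoc', div_le_iff₀ hb0]
      nlinarith
    linarith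
  · rw [mul_one]
    refine (norm_sum_le _ _).trans ?_
    rw [Finset.sum_congr rfl (fun e _ => AddChar.norm_apply _ _), Finset.sum_const, nsmul_eq_mul,
      mul_one]

/-- equidistribution in the residue classes -/
theorem dig_equi {b : ℕ} {k : ℕ} (D : Fin k → Finset ℕ) (hD : ∀ i, ∀ d ∈ D i, d < b) {Q : ℕ} [NeZero Q]
    (hQ : 1 ≤ Q)
    (hbQ : Nat.Coprime b Q) {δ : ℝ} (hδ1 : δ ≤ 1) (hδ0 : 0 < δ) (hδ : ∀ x : ZMod Q, x ≠ 0 →
    ‖(1 : ℂ) + ZMod.stdAddChar x‖ ≤ 2 - δ) (I : Finset (Fin k))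
    (hI : ∀ i ∈ I, ∃ c ∈ D i, ∃ c' ∈ D i, c < c' ∧ Nat.Coprime (c' - c) Q) (r : ℕ) (hr : r < Q) :
    |(((Dig b k D).filter (fun m => m % Q = r)).card : ℝ) - (Dig b k D).card / Q| ≤
      (Dig b k D).card * |1 - δ / b| ^ I.card := by
  classical
  have hQ0 : (0 : ℝ) < Q := by exact_mod_cast hQ
  set S := Dig b k D with hS
  have h1 : (((S.filter (fun m => m % Q = r)).card : ℂ)) * Q =
      ∑ x : ZMod Q, ∑ m ∈ S, (ZMod.stdAddChar (x * ((m : ZMod Q) - (r : ZMod Q))) : ℂ) := by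
    rw [Finset.sum_comm, Finset.card_filter]
    push_cast
    rw [Finset.sum_mul]
    refine Finset.sum_congr rfl fun m _ => ?_
    rw [AddChar.sum_mulShift _ (ZMod.isPrimitive_stdAddChar Q), ZMod.card]
    have h2 : (m : ZMod Q) - r = 0 ↔ m % Q = r := by
      rw [sub_eq_zero, ZMod.natCast_eq_natCast_iff']
      rw [Nat.mod_eq_of_lt hr]
    by_cases h : m % Q = r
    · rw [if_pos h, if_pos (h2.2 h)]
      simp
    · rw [if_neg h, if_neg (fun h3 => h (h2.1 h3))]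
      simp
  have h2 : (((S.filter (fun m => m % Q = r)).card : ℂ)) * Q - S.card =
      ∑ x ∈ (Finset.univ : Finset (ZMod Q)).erase 0, ZMod.stdAddChar (-(x * (r : ZMod Q))) *
        ∑ m ∈ S, (ZMod.stdAddChar ((m : ZMod Q) * x) : ℂ) := by
    rw [h1, ← Finset.add_sum_erase _ _ (Finset.mem_univ (0 : ZMod Q))]
    have e0 : ∑ m ∈ S, (ZMod.stdAddChar ((0 : ZMod Q) * ((m : ZMod Q) - (r : ZMod Q))) : ℂ) = S.card := by
      simp
    rw [e0, add_sub_cancel_left]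
    refine Finset.sum_congr rfl fun x _ => ?_
    rw [Finset.mul_sum]
    refine Finset.sum_congr rfl fun m _ => ?_
    rw [← AddChar.map_add_eq_mul]
    congr 1
    ring
  have h3 : ‖(((S.filter (fun m => m % Q = r)).card : ℂ)) * Q - S.card‖ ≤
      Q * (S.card * |1 - δ / b| ^ I.card) := by
    rw [h2]
    refine (norm_sum_le _ _).trans ?_
    have h4 : ∀ x ∈ (Finset.univ : Finset (ZMod Q)).erase 0,
        ‖(ZMod.stdAddChar (-(x * (r : ZMod Q))) : ℂ) *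
        ∑ m ∈ S, (ZMod.stdAddChar ((m : ZMod Q) * x) : ℂ)‖ ≤ S.card * |1 - δ / b| ^ I.card := by
      intro x hx
      rw [norm_mul, AddChar.norm_apply, one_mul]
      refine (dig_char D hD hbQ hδ1 hδ0 hδ I hI x (Finset.ne_of_mem_erase hx)).trans ?_
      apply mul_le_mul_of_nonneg_left _ (Nat.cast_nonneg _)
      rw [← abs_pow]
      exact le_abs_self _
    refine (Finset.sum_le_sum h4).trans ?_
    rw [Finset.sum_const, nsmul_eq_mul]
    apply mul_le_mul_of_nonneg_right _ (by positivity)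
    have : ((Finset.univ : Finset (ZMod Q)).erase 0).card ≤ Q := by
      refine (Finset.card_erase_le).trans ?_
      rw [Finset.card_univ, ZMod.card]
    exact_mod_cast this
  have h4 : ‖(((S.filter (fun m => m % Q = r)).card : ℂ)) * Q - S.card‖ =
      |((S.filter (fun m => m % Q = r)).card : ℝ) * Q - S.card| := by
    rw [← Real.norm_eq_abs, ← Complex.norm_real]
    push_cast
    rfl
  rw [h4] at h3
  have e1 : ((S.filter (fun m => m % Q = r)).card : ℝ) - S.card / Q =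
      (((S.filter (fun m => m % Q = r)).card : ℝ) * Q - S.card) / Q := by
    field_simp
  rw [e1, abs_div, abs_of_pos hQ0, div_le_iff₀ hQ0]
  refine h3.trans (le_of_eq ?_)
  ring

end Pool.Agent.Q263.SW
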