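import Mathlib
import Pool.Agent.Q263.SW.Equ

/-!
Integers with restricted digits: asymptotic form of the fundamental lemma of the sieve.
-/

set_option autoImplicit false

open Finset

namespace Pool.Agent.Q263.SW

open Pool.Agent.Q263.MD (Dig nb nb_spec nb_digits card_Dig char_sum)
open Pool.Agent.Q263.SV (Pr mem_Pr Pr_empty)

/-- fixing the last digit -/
lemma dig_upd {b : ℕ} {k : ℕ} (hk : 0 < k) (D : Fin k → Finset ℕ) (d : ℕ) (hd : d ∈ D ⟨0, hk⟩) :
    Dig b k (Function.update D ⟨0, hk⟩ {d}) = (Dig b k D).filter (fun m => m % b = d) := by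
  unfold Dig
  rw [Finset.filter_filter]
  apply Finset.filter_congr
  intro m _
  constructor
  · intro h
    have h0 := h ⟨0, hk⟩
    rw [Function.update_self, Finset.mem_singleton] at h0
    simp only [pow_zero, Nat.div_one] at h0
    refine ⟨fun i => ?_, h0⟩
    by_cases hi : i = ⟨0, hk⟩
    · rw [hi]
      simp only [pow_zero, Nat.div_one]
      rw [h0]
      exact hd
    · have := h i
      rwa [Function.update_of_ne hi] at this
  · rintro ⟨h1, h2⟩ i
    by_cases hi : i = ⟨0, hk⟩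
    · rw [hi, Function.update_self, Finset.mem_singleton]
      simp only [pow_zero, Nat.div_one]
      exact h2
    · rw [Function.update_of_ne hi]
      exact h1 i

/-- the number of the choices of the digits in the places `1, ..., k - 1` -/
def Pd {k : ℕ} (D : Fin k → Finset ℕ) : ℕ :=
  ∏ i ∈ (Finset.univ : Finset (Fin k)).filter (fun i : Fin k => (i : ℕ) ≠ 0), (D i).card

lemma filt_eq {k : ℕ} (hk : 0 < k) : (Finset.univ : Finset (Fin k)).filter (fun i : Fin k => (i : ℕ) ≠ 0) =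
    Finset.univ.erase ⟨0, hk⟩ := by
  ext i
  rw [Finset.mem_filter, Finset.mem_erase]
  constructor
  · rintro ⟨h1, h2⟩
    exact ⟨fun h => h2 (by rw [h]), h1⟩
  · rintro ⟨h1, h2⟩
    exact ⟨h2, fun h => h1 (Fin.ext h)⟩

lemma card_upd {b : ℕ} {k : ℕ} (hk : 0 < k) (D : Fin k → Finset ℕ) (hD : ∀ i, ∀ d ∈ D i, d < b)
    (d : ℕ) (hd : d ∈ D ⟨0, hk⟩) :
    (Dig b k (Function.update D ⟨0, hk⟩ {d})).card = Pd D := by
  classical
  have hD' : ∀ i, ∀ e ∈ (Function.update D ⟨0, hk⟩ {d}) i, e < b := by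
    intro i e he
    by_cases hi : i = ⟨0, hk⟩
    · rw [hi, Function.update_self, Finset.mem_singleton] at he
      rw [he]
      exact hD _ d hd
    · rw [Function.update_of_ne hi] at he
      exact hD i e he
  rw [card_Dig _ hD', ← Finset.mul_prod_erase _ _ (Finset.mem_univ (⟨0, hk⟩ : Fin k)),
    Function.update_self, Finset.card_singleton, one_mul]
  unfold Pd
  rw [filt_eq hk]
  refine Finset.prod_congr rfl fun i hi => ?_
  rw [Function.update_of_ne (Finset.ne_of_mem_erase hi)]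

lemma card_all {b : ℕ} {k : ℕ} (hk : 0 < k) (D : Fin k → Finset ℕ) (hD : ∀ i, ∀ d ∈ D i, d < b) :
    (Dig b k D).card = (D ⟨0, hk⟩).card * Pd D := by
  classical
  rw [card_Dig _ hD, ← Finset.mul_prod_erase _ _ (Finset.mem_univ (⟨0, hk⟩ : Fin k))]
  unfold Pd
  rw [filt_eq hk]

/-- a residue class modulo `b * Q` -/
lemma cls {b : ℕ} {k : ℕ} (hk : 0 < k) (D : Fin k → Finset ℕ) (hD : ∀ i, ∀ d ∈ D i, d < b) {Q : ℕ}
    [NeZero Q] (hQ : 1 ≤ Q)
    (hbQ : Nat.Coprime b Q) {δ : ℝ} (hδ1 : δ ≤ 1) (hδ0 : 0 < δ) (hδ : ∀ x : ZMod Q, x ≠ 0 →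
    ‖(1 : ℂ) + ZMod.stdAddChar x‖ ≤ 2 - δ)
    (hI : ∀ i, ∃ c ∈ D i, ∃ c' ∈ D i, c < c' ∧ Nat.Coprime (c' - c) Q)
    (r : ℕ) (hr : r % b ∈ D ⟨0, hk⟩) :
    |((Sr b k D (b * Q) r).card : ℝ) - Pd D / Q| ≤ Pd D * |1 - δ / b| ^ (k - 1) := by
  classical
  set D' := Function.update D ⟨0, hk⟩ {r % b} with hD'
  have hDD : ∀ i, ∀ e ∈ D' i, e < b := by
    intro i e he
    by_cases hi : i = ⟨0, hk⟩
    · rw [hi, hD', Function.update_self, Finset.mem_singleton] at he
      rw [he]
      exact hD _ _ hr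
    · rw [hD', Function.update_of_ne hi] at he
      exact hD i e he
  have h1 := dig_equi D' hDD hQ hbQ hδ1 hδ0 hδ (Finset.univ.erase ⟨0, hk⟩) (by
    intro i hi
    rw [hD', Function.update_of_ne (Finset.ne_of_mem_erase hi)]
    exact hI i) (r % Q) (Nat.mod_lt _ hQ)
  rw [card_upd hk D hD _ hr, Finset.card_erase_of_mem (Finset.mem_univ _), Finset.card_univ,
    Fintype.card_fin, dig_upd hk D _ hr, Finset.filter_filter] at h1
  have h2 : Sr b k D (b * Q) r = (Dig b k D).filter (fun m => m % b = r % b ∧ m % Q = r % Q) := by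
    unfold Sr
    apply Finset.filter_congr
    intro m _
    exact (Nat.modEq_and_modEq_iff_modEq_mul hbQ).symm
  rw [h2]
  exact h1

open Classical in
/-- the main term -/
noncomputable def Xt (b k : ℕ) (D : Fin k → Finset ℕ) (R : ℕ → Finset ℕ) (z : ℕ) : ℝ :=
  (((if hk : 0 < k then D ⟨0, hk⟩ else ∅).filter
      (fun d => ∀ p : ℕ, p.Prime → p ∣ b → p ≤ z → d % p ∉ R p)).card : ℝ) * Pd D *
    ∏ p ∈ (range (z + 1)).filter (fun p => p.Prime ∧ ¬ p ∣ b), (1 - ((R p).card : ℝ) / p)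

lemma Xt_nonneg {b k : ℕ} {D : Fin k → Finset ℕ} {R : ℕ → Finset ℕ} {z : ℕ}
    (hR : ∀ p : ℕ, p.Prime → p ≤ z → (∀ r ∈ R p, r < p)) : 0 ≤ Xt b k D R z := by
  unfold Xt
  apply mul_nonneg (by positivity)
  apply Finset.prod_nonneg
  intro p hp
  rw [Finset.mem_filter, Finset.mem_range] at hp
  have h1 : (R p).card ≤ p := by
    have : R p ⊆ Finset.range p := fun d hd => Finset.mem_range.2 (hR p hp.2.1 (by omega) d hd)
    simpa using Finset.card_le_card this
  have h2 : ((R p).card : ℝ) / p ≤ 1 := by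
    rw [div_le_one (by exact_mod_cast hp.2.1.pos)]
    exact_mod_cast h1
  linarith

lemma key_id (g P t W Q : ℝ) (hQ : Q ≠ 0) : g * P * (t * W) = g * (Q * t) * (P / Q * W) := by
  field_simp

open Classical in
/-- **Asymptotic form of the fundamental lemma for integers with restricted digits.** -/
theorem asy {b : ℕ} (hb : 2 ≤ b) (κ : ℕ) (ε : ℝ) (hε : 0 < ε) :
    ∃ L k₀ : ℕ, 1 ≤ L ∧ ∀ k : ℕ, k₀ ≤ k → ∀ D : Fin k → Finset ℕ,
      (∀ i, ∀ d ∈ D i, d < b) → (∀ i, ∃ c ∈ D i, ∃ c' ∈ D i, c < c' ∧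
        ∀ p : ℕ, p.Prime → p ∣ c' - c → p ∣ b) → ∀ z : ℕ, z ^ L ≤ b ^ k →
      ∀ R : ℕ → Finset ℕ, (∀ p, p.Prime → p ≤ z → (∀ r ∈ R p, r < p) ∧ (R p).card ≤ κ) →
      |(((Dig b k D).filter (fun m => ∀ p : ℕ, p.Prime → p ≤ z → m % p ∉ R p)).card : ℝ) -
        Xt b k D R z| ≤ ε * Xt b k D R z := by
  obtain ⟨e, he⟩ : ∃ e : ℝ, e = min ε 1 / 3 := ⟨_, rfl⟩
  have he0 : 0 < e := by rw [he]; have := lt_min hε one_pos; positivity
  have he1 : e ≤ 1 / 3 := by rw [he]; have := min_le_right ε 1; linarith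
  have he3 : 3 * e ≤ ε := by rw [he]; have := min_le_left ε 1; linarith
  obtain ⟨K₀, L, hL, hs⟩ := sieve hb κ e he0
  obtain ⟨K, hK⟩ : ∃ K, K = K₀ + κ + b := ⟨_, rfl⟩
  set T := (range (K + 1)).filter (fun p => p.Prime ∧ ¬ p ∣ b) with hT
  have hTp : ∀ p ∈ T, p.Prime ∧ ¬ p ∣ b ∧ p ≤ K := by
    intro p hp
    rw [hT, Finset.mem_filter, Finset.mem_range] at hp
    exact ⟨hp.2.1, hp.2.2, by omega⟩
  obtain ⟨Q, hQdef⟩ : ∃ Q, Q = ∏ p ∈ T, p := ⟨_, rfl⟩
  have hQ : 1 ≤ Q := by
    rw [hQdef]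
    exact Finset.prod_pos fun p hp => (hTp p hp).1.pos
  have : NeZero Q := ⟨by omega⟩
  have hQ0 : (0 : ℝ) < Q := by exact_mod_cast hQ
  have hcopT : ∀ n : ℕ, (∀ p ∈ T, Nat.Coprime n p) → Nat.Coprime n Q := by
    intro n h
    rw [hQdef]
    exact Nat.Coprime.prod_right h
  have hbQ : Nat.Coprime b Q := hcopT b fun p hp =>
    ((Nat.Prime.coprime_iff_not_dvd (hTp p hp).1).2 (hTp p hp).2.1).symm
  obtain ⟨δ, hδ0, hδ1, hδ⟩ := delta Q
  have hb0 : (0 : ℝ) < b := by exact_mod_cast (by omega : 0 < b)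
  have hrho : |1 - δ / b| < 1 := by
    have h1 : δ / b ≤ 1 := by
      rw [div_le_one hb0]
      have : (2 : ℝ) ≤ b := by exact_mod_cast hb
      linarith
    have h2 : 0 < δ / b := by positivity
    rw [abs_lt]
    constructor <;> linarith
  obtain ⟨k1, hk1⟩ := hs K (by omega) (b * Q) (Nat.mul_pos (by omega) hQ) (by
    intro p hp hpq
    rcases (hp.dvd_mul).1 hpq with h | h
    · exact (Nat.le_of_dvd (by omega) h).trans (by omega)
    · rw [hQdef, hp.prime.dvd_finsetProd_iff] at h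
      obtain ⟨a, ha, hpa⟩ := h
      rw [(Nat.prime_dvd_prime_iff_eq hp (hTp a ha).1).1 hpa]
      exact (hTp a ha).2.2) (1 / (2 * (b * Q))) (by positivity)
  obtain ⟨k2, hk2⟩ := exists_pow_lt_of_lt_one (show 0 < e / Q by positivity) hrho
  refine ⟨L, k1 + k2 + 1, hL, ?_⟩
  intro k hk D hD hpair z hz R hR
  have hk0 : 0 < k := by omega
  have hX0 := Xt_nonneg (b := b) (D := D) (R := R) (z := z) (fun p hp hpz => (hR p hp hpz).1)
  have hcard2 : ∀ i, 2 ≤ (D i).card := by
    intro i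
    obtain ⟨c, hc, c', hc', hcc, _⟩ := hpair i
    exact Finset.one_lt_card.2 ⟨c, hc, c', hc', hcc.ne⟩
  have hI : ∀ i, ∃ c ∈ D i, ∃ c' ∈ D i, c < c' ∧ Nat.Coprime (c' - c) Q := by
    intro i
    obtain ⟨c, hc, c', hc', hcc, h⟩ := hpair i
    refine ⟨c, hc, c', hc', hcc, hcopT _ fun p hp => ?_⟩
    refine ((Nat.Prime.coprime_iff_not_dvd (hTp p hp).1).2 fun h2 => ?_).symm
    exact (hTp p hp).2.1 (h p (hTp p hp).1 h2)
  set R' : ℕ → Finset ℕ := fun p => if p ≤ z then R p else ∅ with hR'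
  have hR'1 : ∀ p, p.Prime → (∀ r ∈ R' p, r < p) ∧ (R' p).card ≤ κ := by
    intro p hp
    simp only [hR']
    split_ifs with h
    · exact hR p hp h
    · simp
  set P := Pd D with hP
  have hP0 : (0 : ℝ) < P := by
    have : 0 < P := Finset.prod_pos fun i _ => by have := hcard2 i; omega
    exact_mod_cast this
  -- the size of the classes
  have hcl : ∀ r : ℕ, r % b ∈ D ⟨0, hk0⟩ → |((Sr b k D (b * Q) r).card : ℝ) - P / Q| ≤ e * (P / Q) := by
    intro r hr
    refine (cls hk0 D hD hQ hbQ hδ1 hδ0 hδ hI r hr).trans ?_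
    have h1 : |1 - δ / b| ^ (k - 1) ≤ e / Q :=
      (pow_le_pow_of_le_one (abs_nonneg _) hrho.le (by omega : k2 ≤ k - 1)).trans hk2.le
    calc (P : ℝ) * |1 - δ / b| ^ (k - 1) ≤ P * (e / Q) := mul_le_mul_of_nonneg_left h1 hP0.le
      _ = _ := by ring
  set W := ∏ p ∈ Pr K z, (1 - ((R' p).card : ℝ) / p) with hW
  have hW0 : 0 ≤ W := by
    apply Finset.prod_nonneg
    intro p hp
    rw [mem_Pr] at hp
    have h1 : (R' p).card ≤ p := (hR'1 p hp.1).2.trans (by omega)
    have h2 : ((R' p).card : ℝ) / p ≤ 1 := by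
      rw [div_le_one (by exact_mod_cast hp.1.pos)]
      exact_mod_cast h1
    linarith
  -- the terms
  have hterm : ∀ r : ℕ, r % b ∈ D ⟨0, hk0⟩ →
      |(((Sr b k D (b * Q) r).filter (fun m => ∀ p ∈ Pr K z, m % p ∉ R' p)).card : ℝ) - P / Q * W| ≤
        3 * e * (P / Q * W) := by
    intro r hr
    have h1 := hcl r hr
    have hPQ : (0 : ℝ) < P / Q := by positivity
    have h2 := hk1 k (by omega) D hD hcard2 z hz r (by
      have h3 := (abs_le.1 h1).1
      have h4 : ((Dig b k D).card : ℝ) ≤ b * P := by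
        rw [card_all hk0 D hD]
        push_cast
        apply mul_le_mul_of_nonneg_right _ hP0.le
        have : (D ⟨0, hk0⟩).card ≤ b := by
          have : D ⟨0, hk0⟩ ⊆ Finset.range b := fun d hd => Finset.mem_range.2 (hD _ d hd)
          simpa using Finset.card_le_card this
        exact_mod_cast this
      calc 1 / (2 * ((b : ℝ) * Q)) * (Dig b k D).card ≤ 1 / (2 * ((b : ℝ) * Q)) * (b * P) :=
            mul_le_mul_of_nonneg_left h4 (by positivity)
        _ = P / Q / 2 := by field_simp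
        _ ≤ _ := by nlinarith) R' (fun p hp _ _ => hR'1 p hp)
    have h3 := (abs_le.1 h1)
    have h4 : ((Sr b k D (b * Q) r).card : ℝ) * W ≤ (1 + e) * (P / Q) * W :=
      mul_le_mul_of_nonneg_right (by linarith) hW0
    have h5 : (1 - e) * (P / Q) * W ≤ ((Sr b k D (b * Q) r).card : ℝ) * W :=
      mul_le_mul_of_nonneg_right (by linarith) hW0
    have h6 := abs_le.1 h2
    have hPW : 0 ≤ (P : ℝ) / Q * W := by positivity
    rw [abs_le]
    constructor
    · have h7 : e * (((Sr b k D (b * Q) r).card : ℝ) * W) ≤ e * ((1 + e) * (P / Q) * W) :=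
        mul_le_mul_of_nonneg_left h4 he0.le
      have h8 : e * e * ((P : ℝ) / Q * W) ≤ 1 / 3 * (e * ((P : ℝ) / Q * W)) := by
        have := mul_le_mul_of_nonneg_right he1 (mul_nonneg he0.le hPW)
        linarith
      nlinarith
    · have h7 : e * (((Sr b k D (b * Q) r).card : ℝ) * W) ≤ e * ((1 + e) * (P / Q) * W) :=
        mul_le_mul_of_nonneg_left h4 he0.le
      have h8 : e * e * ((P : ℝ) / Q * W) ≤ 1 / 3 * (e * ((P : ℝ) / Q * W)) := by
        have := mul_le_mul_of_nonneg_right he1 (mul_nonneg he0.le hPW)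
        linarith
      nlinarith
  -- the index set
  set G0 := (D ⟨0, hk0⟩).filter (fun d => ∀ p : ℕ, p.Prime → p ∣ b → p ≤ z → d % p ∉ R p) with hG0
  set GQ := (range Q).filter (fun n => ∀ p ∈ T, n % p ∉ R' p) with hGQ
  have hGQc : (GQ.card : ℝ) = ∏ p ∈ T, ((p : ℝ) - (R' p).card) := by
    have h := Pool.Agent.H373R2.T7.crt_card (fun p a => a ∉ R' p) T (fun p hp => (hTp p hp).1)
    rw [hGQ, hQdef, h]
    push_cast
    refine Finset.prod_congr rfl fun p hp => ?_
    have h1 : ((range p).filter (fun a => a ∉ R' p)) = (range p) \ R' p := by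
      ext a
      rw [Finset.mem_filter, Finset.mem_sdiff]
    have h2 : R' p ⊆ range p := fun a ha => Finset.mem_range.2 ((hR'1 p (hTp p hp).1).1 a ha)
    rw [h1, Finset.card_sdiff_of_subset h2, Finset.card_range,
      Nat.cast_sub (by simpa using Finset.card_le_card h2)]
  set A := (Dig b k D).filter (fun m => ∀ p : ℕ, p.Prime → p ≤ z → m % p ∉ R p) with hA
  have hmaps : ∀ m ∈ A, (m % b, m % Q) ∈ G0 ×ˢ GQ := by
    intro m hm
    rw [hA, Finset.mem_filter] at hm
    obtain ⟨hm1, hm2⟩ := hm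
    rw [Finset.mem_product]
    refine ⟨?_, ?_⟩
    · rw [hG0, Finset.mem_filter]
      unfold Dig at hm1
      rw [Finset.mem_filter] at hm1
      have h0 := hm1.2 ⟨0, hk0⟩
      simp only [pow_zero, Nat.div_one] at h0
      refine ⟨h0, fun p hp hpb hpz => ?_⟩
      rw [Nat.mod_mod_of_dvd _ hpb]
      exact hm2 p hp hpz
    · rw [hGQ, Finset.mem_filter]
      refine ⟨Finset.mem_range.2 (Nat.mod_lt _ hQ), fun p hp => ?_⟩
      have hpQ : p ∣ Q := by rw [hQdef]; exact Finset.dvd_prod_of_mem (fun p => p) hp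
      rw [Nat.mod_mod_of_dvd _ hpQ]
      simp only [hR']
      split_ifs with h
      · exact hm2 p (hTp p hp).1 h
      · exact Finset.notMem_empty _
  have hfib : ∀ x ∈ G0 ×ˢ GQ, |((A.filter (fun m => (m % b, m % Q) = x)).card : ℝ) - P / Q * W| ≤
      3 * e * (P / Q * W) := by
    rintro ⟨d, s⟩ hx
    rw [Finset.mem_product] at hx
    obtain ⟨hd, hs'⟩ := hx
    simp only at hd hs'
    rw [hG0, Finset.mem_filter] at hd
    rw [hGQ, Finset.mem_filter, Finset.mem_range] at hs'
    obtain ⟨r, hr1, hr2⟩ := Nat.chineseRemainder hbQ d s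
    have hdb : d < b := hD _ d hd.1
    have hr1' : r % b = d := by rw [hr1, Nat.mod_eq_of_lt hdb]
    have hr2' : r % Q = s := by rw [hr2, Nat.mod_eq_of_lt hs'.1]
    have h1 := hterm r (by rw [hr1']; exact hd.1)
    have h2 : A.filter (fun m => (m % b, m % Q) = (d, s)) =
        (Sr b k D (b * Q) r).filter (fun m => ∀ p ∈ Pr K z, m % p ∉ R' p) := by
      ext m
      have hcong : (m % (b * Q) = r % (b * Q)) ↔ (m % b = d ∧ m % Q = s) := by
        rw [← hr1', ← hr2']
        exact (Nat.modEq_and_modEq_iff_modEq_mul hbQ).symm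
      constructor
      · intro h
        rw [Finset.mem_filter] at h
        obtain ⟨h3, h4⟩ := h
        rw [Prod.mk.injEq] at h4
        rw [hA, Finset.mem_filter] at h3
        rw [Finset.mem_filter]
        refine ⟨?_, ?_⟩
        · unfold Sr
          rw [Finset.mem_filter]
          exact ⟨h3.1, hcong.2 h4⟩
        · intro p hp
          rw [mem_Pr] at hp
          simp only [hR']
          rw [if_pos hp.2.2]
          exact h3.2 p hp.1 hp.2.2
      · intro h
        rw [Finset.mem_filter] at h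
        obtain ⟨h3, h4⟩ := h
        unfold Sr at h3
        rw [Finset.mem_filter] at h3
        have h5 := hcong.1 h3.2
        rw [Finset.mem_filter]
        refine ⟨?_, by rw [Prod.mk.injEq]; exact h5⟩
        rw [hA, Finset.mem_filter]
        refine ⟨h3.1, fun p hp hpz => ?_⟩
        by_cases hpK : K < p
        · have := h4 p (mem_Pr.2 ⟨hp, hpK, hpz⟩)
          simp only [hR'] at this
          rwa [if_pos hpz] at this
        · by_cases hpb : p ∣ b
          · rw [← Nat.mod_mod_of_dvd m hpb, h5.1]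
            exact hd.2 p hp hpb hpz
          · have hpT : p ∈ T := by
              rw [hT, Finset.mem_filter, Finset.mem_range]
              exact ⟨by omega, hp, hpb⟩
            have hpQ : p ∣ Q := by rw [hQdef]; exact Finset.dvd_prod_of_mem (fun p => p) hpT
            rw [← Nat.mod_mod_of_dvd m hpQ, h5.2]
            have := hs'.2 p hpT
            simp only [hR'] at this
            rwa [if_pos hpz] at this
    rw [h2]
    exact h1
  have hAsum : (A.card : ℝ) = ∑ x ∈ G0 ×ˢ GQ, ((A.filter (fun m => (m % b, m % Q) = x)).card : ℝ) := by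
    rw [← Nat.cast_sum, Finset.card_eq_sum_card_fiberwise (f := fun m => (m % b, m % Q)) (t := G0 ×ˢ GQ)]
    exact hmaps
  have hXeq : Xt b k D R z = ((G0 ×ˢ GQ).card : ℝ) * (P / Q * W) := by
    unfold Xt
    rw [dif_pos hk0, ← hG0, ← hP, Finset.card_product]
    push_cast
    rw [hGQc]
    have h1 : ∏ p ∈ T, ((p : ℝ) - (R' p).card) = Q * ∏ p ∈ T, (1 - ((R' p).card : ℝ) / p) := by
      rw [hQdef]
      push_cast
      rw [← Finset.prod_mul_distrib]
      refine Finset.prod_congr rfl fun p hp => ?_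
      have : (p : ℝ) ≠ 0 := by exact_mod_cast (hTp p hp).1.ne_zero
      field_simp
    have h2 : ∏ p ∈ (range (z + 1)).filter (fun p => p.Prime ∧ ¬ p ∣ b), (1 - ((R p).card : ℝ) / p) =
        (∏ p ∈ T, (1 - ((R' p).card : ℝ) / p)) * W := by
      have hdisj : Disjoint T (Pr K z) := by
        rw [Finset.disjoint_left]
        intro p hp hp2
        have := (hTp p hp).2.2
        have := (mem_Pr.1 hp2).2.1
        omega
      rw [hW, ← Finset.prod_union hdisj]
      have hsub : (range (z + 1)).filter (fun p => p.Prime ∧ ¬ p ∣ b) ⊆ T ∪ Pr K z := by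
        intro p hp
        rw [Finset.mem_filter, Finset.mem_range] at hp
        rw [Finset.mem_union]
        by_cases h : K < p
        · right
          exact mem_Pr.2 ⟨hp.2.1, h, by omega⟩
        · left
          rw [hT, Finset.mem_filter, Finset.mem_range]
          exact ⟨by omega, hp.2⟩
      rw [← Finset.prod_subset hsub]
      · refine Finset.prod_congr rfl fun p hp => ?_
        rw [Finset.mem_filter, Finset.mem_range] at hp
        simp only [hR']
        rw [if_pos (by omega)]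
      · intro p hp hp2
        have hpp : p.Prime ∧ ¬ p ∣ b := by
          rw [Finset.mem_union] at hp
          rcases hp with h | h
          · exact ⟨(hTp p h).1, (hTp p h).2.1⟩
          · rw [mem_Pr] at h
            refine ⟨h.1, fun h2 => ?_⟩
            have := Nat.le_of_dvd (by omega) h2
            omega
        have hzp : ¬ p ≤ z := by
          intro h
          apply hp2
          rw [Finset.mem_filter, Finset.mem_range]
          exact ⟨by omega, hpp⟩
        simp only [hR']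
        rw [if_neg hzp]
        simp
    rw [h1, h2]
    exact key_id _ _ _ _ _ hQ0.ne'
  rw [hXeq, hAsum]
  have h1 : ∑ x ∈ G0 ×ˢ GQ, ((A.filter (fun m => (m % b, m % Q) = x)).card : ℝ) -
      ((G0 ×ˢ GQ).card : ℝ) * (P / Q * W) =
      ∑ x ∈ G0 ×ˢ GQ, (((A.filter (fun m => (m % b, m % Q) = x)).card : ℝ) - P / Q * W) := by
    rw [Finset.sum_sub_distrib, Finset.sum_const, nsmul_eq_mul]
  rw [h1]
  refine (Finset.abs_sum_le_sum_abs _ _).trans ((Finset.sum_le_sum hfib).trans ?_)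
  rw [Finset.sum_const, nsmul_eq_mul]
  have h3 : 0 ≤ ((G0 ×ˢ GQ).card : ℝ) * (P / Q * W) := by positivity
  calc ((G0 ×ˢ GQ).card : ℝ) * (3 * e * (P / Q * W)) = 3 * e * (((G0 ×ˢ GQ).card : ℝ) * (P / Q * W)) := by
        ring
    _ ≤ _ := mul_le_mul_of_nonneg_right he3 h3

end Pool.Agent.Q263.SW
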