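import Mathlib
import Pool.Agent.Q263.SW.Fin
import Pool.Agent.Q263.SV.Alm
import Pool.Agent.H474R2.GE.FA

/-!
Values of polynomials at integers with restricted digits: high powers of small primes, and the
sifting products.
-/

set_option autoImplicit false

open Finset Polynomial

namespace Pool.Agent.Q263.SW

open Pool.Agent.Q263.MD (Dig Dig_ge)
open Pool.Agent.Q263.SV (Pr mem_Pr class_share pow_split exp_quad)
open Pool.Agent.H474R2.PG (rho Sg PR)

open Classical in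
/-- the share of the integers for which the value of a polynomial is divisible by a high power
of a prime -/
lemma pow_share {b : ℕ} (hb : 2 ≤ b) {k : ℕ} (D : Fin k → Finset ℕ)
    (hD : ∀ i, ∀ d ∈ D i, d < b) (hD2 : ∀ i, 2 ≤ (D i).card) (i q t e : ℕ) (hi : i ≤ k)
    (hq : q.Prime) (hQ : b ^ i ≤ q ^ t) (ht : 1 ≤ t) (he : 1 ≤ e) : ∀ (d : ℕ) (F : ℤ[X]),
    F.natDegree = d → ¬ ((q : ℤ) ^ e ∣ F.leadingCoeff) →
    ((Dig b k D).filter (fun n : ℕ => ((q : ℤ) ^ (e + d * t)) ∣ F.eval (n : ℤ))).card * 2 ^ i ≤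
      d * (Dig b k D).card := by
  intro d
  induction d with
  | zero =>
    intro F hF hlc
    have h0 : (Dig b k D).filter (fun n : ℕ => ((q : ℤ) ^ (e + 0 * t)) ∣ F.eval (n : ℤ)) = ∅ := by
      rw [Finset.filter_eq_empty_iff]
      intro n _ hn
      rw [zero_mul, add_zero, Polynomial.eq_C_of_natDegree_eq_zero hF, Polynomial.eval_C] at hn
      apply hlc
      rw [Polynomial.leadingCoeff, hF]
      exact hn
    rw [h0]
    simp
  | succ d ih =>
    intro F hF hlc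
    rcases ((Dig b k D).filter
      (fun n : ℕ => ((q : ℤ) ^ (e + (d + 1) * t)) ∣ F.eval (n : ℤ))).eq_empty_or_nonempty with
      h0 | ⟨n0, hn0⟩
    · rw [h0]
      simp
    rw [Finset.mem_filter] at hn0
    have hqp : Prime (q : ℤ) := Nat.prime_iff_prime_int.1 hq
    set G := F /ₘ (X - C (n0 : ℤ)) with hG
    have hdeg : F.degree ≠ 0 := by
      intro h
      have := Polynomial.natDegree_eq_of_degree_eq_some h
      exact absurd (hF.symm.trans this) (Nat.succ_ne_zero d)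
    have hGd : G.natDegree = d := by
      rw [hG, Polynomial.natDegree_divByMonic _ (monic_X_sub_C _), hF, natDegree_X_sub_C]
      rfl
    have hGl : G.leadingCoeff = F.leadingCoeff := by
      rw [hG]
      exact Polynomial.leadingCoeff_divByMonic_X_sub_C F hdeg _
    have hFG : ∀ x : ℤ, F.eval x = F.eval (n0 : ℤ) + (x - n0) * G.eval x := by
      intro x
      have h1 := congrArg (Polynomial.eval x) (Polynomial.modByMonic_add_div F (X - C (n0 : ℤ)))
      rw [Polynomial.modByMonic_X_sub_C_eq_C_eval, eval_add, eval_C, eval_mul, eval_sub, eval_X,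
        eval_C] at h1
      exact h1.symm
    have hsub : (Dig b k D).filter (fun n : ℕ => ((q : ℤ) ^ (e + (d + 1) * t)) ∣ F.eval (n : ℤ)) ⊆
        (Dig b k D).filter (fun n : ℕ => ((q : ℤ) ^ t) ∣ (n : ℤ) - n0) ∪
        (Dig b k D).filter (fun n : ℕ => ((q : ℤ) ^ (e + d * t)) ∣ G.eval (n : ℤ)) := by
      intro n hn
      rw [Finset.mem_filter] at hn
      rw [Finset.mem_union, Finset.mem_filter, Finset.mem_filter]
      have h1 : ((q : ℤ) ^ (e + (d + 1) * t)) ∣ ((n : ℤ) - n0) * G.eval (n : ℤ) := by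
        have h2 := dvd_sub hn.2 hn0.2
        rw [hFG (n : ℤ), add_sub_cancel_left] at h2
        exact h2
      have h2 : ((q : ℤ) ^ ((t - 1) + (e + d * t - 1) + 1)) ∣ ((n : ℤ) - n0) * G.eval (n : ℤ) := by
        refine (pow_dvd_pow _ ?_).trans h1
        have : (d + 1) * t = d * t + t := by ring
        omega
      rcases pow_split hqp (t - 1) (e + d * t - 1) _ _ h2 with h | h
      · left
        rw [show t - 1 + 1 = t by omega] at h
        exact ⟨hn.1, h⟩
      · right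
        rw [show e + d * t - 1 + 1 = e + d * t by omega] at h
        exact ⟨hn.1, h⟩
    have h1 := class_share hb D hD hD2 i (q ^ t) hi hQ
      (fun n : ℕ => ((q : ℤ) ^ t) ∣ (n : ℤ) - n0) (by
        intro x _ y _ hx hy
        apply Nat.ModEq.symm
        rw [Nat.modEq_iff_dvd]
        have := dvd_sub hx hy
        have e : (x : ℤ) - n0 - ((y : ℤ) - n0) = x - y := by ring
        rw [e] at this
        exact_mod_cast this)
    have h2 := ih G hGd (by rw [hGl]; exact hlc)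
    have h3 := (Finset.card_le_card hsub).trans (Finset.card_union_le _ _)
    calc _ ≤ (((Dig b k D).filter (fun n : ℕ => ((q : ℤ) ^ t) ∣ (n : ℤ) - n0)).card +
          ((Dig b k D).filter (fun n : ℕ => ((q : ℤ) ^ (e + d * t)) ∣ G.eval (n : ℤ))).card) * 2 ^ i :=
          Nat.mul_le_mul_right _ h3
      _ ≤ _ := by
          rw [add_mul, add_mul, one_mul]
          omega

/-- the sifting product -/
noncomputable def Wp (ρ : ℕ → ℕ) (K z : ℕ) : ℝ := ∏ p ∈ Pr K z, (1 - (ρ p : ℝ) / p)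

lemma Wp_pos {ρ : ℕ → ℕ} {K κ : ℕ} (hρ : ∀ p, p.Prime → K < p → ρ p ≤ κ) (hK : 2 * κ ≤ K) (z : ℕ) :
    0 < Wp ρ K z := by
  apply Finset.prod_pos
  intro p hp
  rw [mem_Pr] at hp
  have h1 : (0 : ℝ) < p := by exact_mod_cast hp.1.pos
  have h2 : (ρ p : ℝ) ≤ κ := by exact_mod_cast hρ p hp.1 hp.2.1
  have h3 : 2 * (κ : ℝ) ≤ p := by exact_mod_cast (by omega : 2 * κ ≤ p)
  have h4 : (ρ p : ℝ) / p ≤ 1 / 2 := by
    rw [div_le_iff₀ h1]
    linarith
  linarith

/-- the order of the sifting product -/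
theorem Wp_order {b : ℕ} (hb : 2 ≤ b) (ρ : ℕ → ℕ) (r κ : ℕ) (hM : ∃ C : ℝ, ∀ w : ℝ, 3 ≤ w →
    |Sg ρ w - r * Real.log (Real.log w)| ≤ C) (K : ℕ) (hρ : ∀ p, p.Prime → K < p → ρ p ≤ κ)
    (hK : 2 * κ ≤ K) (L : ℕ) (hL : 1 ≤ L) :
    ∃ (k₀ : ℕ) (c C : ℝ), 0 < c ∧ 0 < C ∧ ∀ k : ℕ, k₀ ≤ k →
      c / (k : ℝ) ^ r ≤ Wp ρ K (b ^ (k / L)) ∧ Wp ρ K (b ^ (k / L)) ≤ C / (k : ℝ) ^ r := by
  obtain ⟨C0, hC0⟩ := hM
  have hb1 : (1 : ℝ) < b := by exact_mod_cast (by omega : 1 < b)
  have hlb : 0 < Real.log b := Real.log_pos hb1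
  have hsum : Summable (fun n : ℕ => 1 / (n : ℝ) ^ 2) :=
    Real.summable_one_div_nat_pow.2 (by norm_num)
  set Z := ∑' n : ℕ, 1 / (n : ℝ) ^ 2 with hZ
  have hZ0 : 0 ≤ Z := tsum_nonneg fun i => by positivity
  set C1 : ℝ := C0 + |r * Real.log (Real.log b)| + Sg ρ K with hC1
  have hSgK : 0 ≤ Sg ρ K := Finset.sum_nonneg fun p _ => by positivity
  refine ⟨L * (2 + K), Real.exp (-(C1 + 2 * κ ^ 2 * Z)), (2 * L) ^ r * Real.exp C1,
    Real.exp_pos _, by positivity, fun k hk => ?_⟩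
  set m := k / L with hm
  have hm2 : 2 + K ≤ m := by
    rw [hm, Nat.le_div_iff_mul_le (by omega)]
    calc (2 + K) * L = L * (2 + K) := by ring
      _ ≤ k := hk
  have hm0 : (0 : ℝ) < m := by exact_mod_cast (by omega : 0 < m)
  set z := b ^ m with hz
  have hzr : (z : ℝ) = (b : ℝ) ^ m := by rw [hz]; push_cast; rfl
  have hz3 : (3 : ℝ) ≤ z := by
    have h1 : 2 ^ 2 ≤ b ^ m := by
      calc 2 ^ 2 ≤ b ^ 2 := Nat.pow_le_pow_left hb 2
        _ ≤ b ^ m := Nat.pow_le_pow_right (by omega) (by omega)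
    exact_mod_cast (by omega : 3 ≤ b ^ m)
  have hKz : K ≤ z := by
    calc K ≤ m := by omega
      _ ≤ b ^ m := (Nat.lt_pow_self (by omega)).le
  have hloglog : Real.log (Real.log z) = Real.log m + Real.log (Real.log b) := by
    rw [hzr, Real.log_pow, Real.log_mul hm0.ne' hlb.ne']
  -- the sum over the primes
  have hsplit : Sg ρ z = Sg ρ K + ∑ p ∈ Pr K z, (ρ p : ℝ) / p := by
    unfold Sg PR Pr
    rw [Nat.floor_natCast, Nat.floor_natCast]
    rw [← Finset.sum_filter_add_sum_filter_not ((Finset.Icc 1 z).filter Nat.Prime) (fun p => p ≤ K)]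
    congr 1
    · apply Finset.sum_congr _ (fun _ _ => rfl)
      ext p
      rw [Finset.mem_filter, Finset.mem_filter, Finset.mem_filter, Finset.mem_Icc, Finset.mem_Icc]
      constructor
      · rintro ⟨⟨⟨h1, h2⟩, h3⟩, h4⟩
        exact ⟨⟨h1, h4⟩, h3⟩
      · rintro ⟨⟨h1, h4⟩, h3⟩
        exact ⟨⟨⟨h1, h4.trans hKz⟩, h3⟩, h4⟩
    · apply Finset.sum_congr _ (fun _ _ => rfl)
      ext p
      rw [Finset.mem_filter, Finset.mem_filter, Finset.mem_filter, Finset.mem_Icc, Finset.mem_Icc]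
      constructor
      · rintro ⟨⟨⟨h1, h2⟩, h3⟩, h4⟩
        exact ⟨⟨by omega, h2⟩, h3⟩
      · rintro ⟨⟨h1, h4⟩, h3⟩
        exact ⟨⟨⟨by omega, h4⟩, h3⟩, by omega⟩
  set T := ∑ p ∈ Pr K z, (ρ p : ℝ) / p with hT
  have hTr : |T - r * Real.log m| ≤ C1 := by
    have h1 := hC0 z hz3
    rw [hloglog, hsplit] at h1
    have h2 : T - r * Real.log m = (Sg ρ K + T - r * (Real.log m + Real.log (Real.log b))) +
        r * Real.log (Real.log b) - Sg ρ K := by ring
    rw [h2, hC1]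
    refine (abs_sub _ _).trans ?_
    have h3 := abs_add_le (Sg ρ K + T - r * (Real.log m + Real.log (Real.log b)))
      (r * Real.log (Real.log b))
    rw [abs_of_nonneg hSgK]
    linarith
  have hT1 := (abs_le.1 hTr).1
  have hT2 := (abs_le.1 hTr).2
  have hp : ∀ p ∈ Pr K z, (0 : ℝ) < p ∧ 0 ≤ (ρ p : ℝ) / p ∧ (ρ p : ℝ) / p ≤ κ / p ∧
      (ρ p : ℝ) / p ≤ 1 / 2 := by
    intro p hp
    have h3 := mem_Pr.1 hp
    have h1 : (0 : ℝ) < p := by exact_mod_cast h3.1.pos
    have h2 : (ρ p : ℝ) ≤ κ := by exact_mod_cast hρ p h3.1 h3.2.1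
    have h4 : 2 * (κ : ℝ) ≤ p := by exact_mod_cast (by omega : 2 * κ ≤ p)
    refine ⟨h1, by positivity, div_le_div_of_nonneg_right h2 h1.le, ?_⟩
    rw [div_le_iff₀ h1]
    linarith
  have hmr : Real.exp (r * Real.log m) = (m : ℝ) ^ r := by
    rw [← Real.log_pow, Real.exp_log (by positivity)]
  have hW0 : 0 < Wp ρ K z := Wp_pos hρ hK z
  constructor
  · -- lower bound
    have h3 : 1 ≤ Wp ρ K z * Real.exp (∑ p ∈ Pr K z, ((ρ p : ℝ) / p + 2 * ((ρ p : ℝ) / p) ^ 2)) := by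
      unfold Wp
      rw [Real.exp_sum, ← Finset.prod_mul_distrib]
      calc (1 : ℝ) = ∏ _p ∈ Pr K z, (1 : ℝ) := by rw [Finset.prod_const_one]
        _ ≤ _ := by
          apply Finset.prod_le_prod (fun _ _ => zero_le_one)
          intro p hp'
          obtain ⟨h4, h5, h6, h7⟩ := hp p hp'
          exact exp_quad _ h5 h7
    have h4 : ∑ p ∈ Pr K z, ((ρ p : ℝ) / p + 2 * ((ρ p : ℝ) / p) ^ 2) ≤
        r * Real.log m + C1 + 2 * κ ^ 2 * Z := by
      rw [Finset.sum_add_distrib]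
      have h5 : ∑ p ∈ Pr K z, 2 * ((ρ p : ℝ) / p) ^ 2 ≤ 2 * κ ^ 2 * Z := by
        calc ∑ p ∈ Pr K z, 2 * ((ρ p : ℝ) / p) ^ 2 ≤
              ∑ p ∈ Pr K z, 2 * (κ : ℝ) ^ 2 * (1 / (p : ℝ) ^ 2) := by
              refine Finset.sum_le_sum fun p hp' => ?_
              obtain ⟨h4, h5, h6, h7⟩ := hp p hp'
              have h8 := pow_le_pow_left₀ h5 h6 2
              have h9 : ((κ : ℝ) / p) ^ 2 = (κ : ℝ) ^ 2 * (1 / (p : ℝ) ^ 2) := by
                rw [div_pow]
                ring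
              rw [h9] at h8
              linarith
          _ = 2 * (κ : ℝ) ^ 2 * ∑ p ∈ Pr K z, 1 / (p : ℝ) ^ 2 := by rw [Finset.mul_sum]
          _ ≤ _ := by
              apply mul_le_mul_of_nonneg_left _ (by positivity)
              exact hsum.sum_le_tsum _ fun i _ => by positivity
      linarith
    have h5 : Real.exp (∑ p ∈ Pr K z, ((ρ p : ℝ) / p + 2 * ((ρ p : ℝ) / p) ^ 2)) ≤
        (m : ℝ) ^ r * Real.exp (C1 + 2 * κ ^ 2 * Z) := by
      rw [← hmr, ← Real.exp_add]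
      apply Real.exp_le_exp.2
      linarith
    have h6 : 1 ≤ Wp ρ K z * ((m : ℝ) ^ r * Real.exp (C1 + 2 * κ ^ 2 * Z)) :=
      h3.trans (mul_le_mul_of_nonneg_left h5 hW0.le)
    have h7 : (m : ℝ) ≤ k := by exact_mod_cast Nat.div_le_self k L
    have h8 : (m : ℝ) ^ r ≤ (k : ℝ) ^ r := pow_le_pow_left₀ hm0.le h7 r
    have hk0 : (0 : ℝ) < k := lt_of_lt_of_le hm0 h7
    rw [div_le_iff₀ (by positivity), Real.exp_neg]
    have h9 : 1 ≤ Wp ρ K z * ((k : ℝ) ^ r * Real.exp (C1 + 2 * κ ^ 2 * Z)) :=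
      h6.trans (mul_le_mul_of_nonneg_left (mul_le_mul_of_nonneg_right h8 (Real.exp_nonneg _)) hW0.le)
    rw [← one_div, div_le_iff₀ (Real.exp_pos _)]
    linarith
  · -- upper bound
    have h3 : Wp ρ K z ≤ Real.exp (-T) := by
      rw [hT, ← Finset.sum_neg_distrib, Real.exp_sum]
      unfold Wp
      apply Finset.prod_le_prod
      · intro p hp'
        obtain ⟨h4, h5, h6, h7⟩ := hp p hp'
        linarith
      · intro p hp'
        have := Real.add_one_le_exp (-((ρ p : ℝ) / p))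
        linarith
    have h4 : Real.exp (-T) ≤ Real.exp C1 / (m : ℝ) ^ r := by
      rw [le_div_iff₀ (by positivity), ← hmr, ← Real.exp_add]
      apply Real.exp_le_exp.2
      linarith
    have h5 : (k : ℝ) ≤ 2 * L * m := by
      have h6 := Nat.lt_mul_div_succ k (show 0 < L by omega)
      have h7 : k < L * (m + 1) := by rw [hm]; exact h6
      have h8 : L * (m + 1) ≤ L * (2 * m) := Nat.mul_le_mul_left L (by omega)
      have h9 : k ≤ 2 * L * m := by
        calc k ≤ L * (2 * m) := by omega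
          _ = _ := by ring
      exact_mod_cast h9
    have hk0 : (0 : ℝ) < k := by
      have h7 : (m : ℝ) ≤ k := by exact_mod_cast Nat.div_le_self k L
      linarith
    refine h3.trans (h4.trans ?_)
    rw [div_le_div_iff₀ (by positivity) (by positivity)]
    calc Real.exp C1 * (k : ℝ) ^ r ≤ Real.exp C1 * (2 * L * m) ^ r :=
          mul_le_mul_of_nonneg_left (pow_le_pow_left₀ hk0.le h5 r) (Real.exp_nonneg _)
      _ = _ := by rw [mul_pow]; ring

end Pool.Agent.Q263.SW
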