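import Mathlib
import Pool.Agent.Q263.SW.Pol

/-!
Values of a polynomial at integers with restricted digits: upper and lower bounds.
-/

set_option autoImplicit false

open Finset Polynomial

namespace Pool.Agent.Q263.SW

open Pool.Agent.Q263.MD (Dig Dig_ge)
open Pool.Agent.Q263.SV (Pr mem_Pr factor)
open Pool.Agent.H474R2.PG (rho Sg PR rho_le)

/-- the roots modulo `p` -/
noncomputable def Rt (F : ℤ[X]) (p : ℕ) : Finset ℕ :=
  (range p).filter (fun a : ℕ => (p : ℤ) ∣ F.eval (a : ℤ))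

lemma eval_mod (F : ℤ[X]) (q : ℤ) (x y : ℤ) (h : q ∣ x - y) : q ∣ F.eval x ↔ q ∣ F.eval y := by
  have h1 : q ∣ F.eval x - F.eval y := h.trans (Polynomial.sub_dvd_eval_sub x y F)
  constructor
  · intro h2
    have := dvd_sub h2 h1
    rwa [sub_sub_cancel] at this
  · intro h2
    have := dvd_add h1 h2
    rwa [sub_add_cancel] at this

lemma mem_Rt (F : ℤ[X]) (p : ℕ) (hp : 0 < p) (m : ℕ) : m % p ∈ Rt F p ↔ (p : ℤ) ∣ F.eval (m : ℤ) := by
  unfold Rt
  rw [Finset.mem_filter, Finset.mem_range]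
  have h1 : (p : ℤ) ∣ ((m % p : ℕ) : ℤ) - m := by
    rw [Int.natCast_mod]
    exact ⟨-((m : ℤ) / p), by have := Int.emod_add_mul_ediv (m : ℤ) p; linarith⟩
  rw [eval_mod F p _ _ h1]
  exact ⟨fun h => h.2, fun h => ⟨Nat.mod_lt _ hp, h⟩⟩

open Classical in
/-- upper bound -/
theorem upper {b : ℕ} (hb : 2 ≤ b) (F : ℤ[X]) (hF : 0 < F.natDegree) :
    ∃ K₁ L₁ : ℕ, 1 ≤ L₁ ∧ ∀ K, K₁ ≤ K → ∀ L, L₁ ≤ L → ∀ (k : ℕ) (D : Fin k → Finset ℕ),
      (∀ i, ∀ d ∈ D i, d < b) → (∀ i, 2 ≤ (D i).card) →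
      (((Dig b k D).filter (fun n : ℕ => ∀ p ∈ Pr K (b ^ (k / L)),
        ¬ (p : ℤ) ∣ F.eval (n : ℤ))).card : ℝ) ≤
        2 * (Dig b k D).card * Wp (rho F) K (b ^ (k / L)) := by
  obtain ⟨K₀, L₀, hL₀, hs⟩ := Pool.Agent.Q263.SV.sieve hb F.natDegree 1 one_pos
  obtain ⟨B, hB⟩ := rho_le F (by rintro rfl; simp at hF)
  refine ⟨K₀ + B, L₀, hL₀, fun K hK L hL k D hD hD2 => ?_⟩
  have hz : (b ^ (k / L)) ^ L₀ ≤ b ^ k := by
    rw [← pow_mul]
    apply Nat.pow_le_pow_right (by omega)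
    exact (Nat.mul_le_mul_left _ hL).trans (Nat.div_mul_le_self k L)
  have h1 := hs K (by omega) k D hD hD2 (b ^ (k / L)) hz (Rt F) (by
    intro p hp hKp _
    refine ⟨fun r hr => ?_, hB p hp (by omega)⟩
    unfold Rt at hr
    rw [Finset.mem_filter, Finset.mem_range] at hr
    exact hr.1)
  have h2 := (abs_le.1 h1).2
  have h3 : ((Dig b k D).filter (fun n : ℕ => ∀ p ∈ Pr K (b ^ (k / L)),
        ¬ (p : ℤ) ∣ F.eval (n : ℤ))) =
      (Dig b k D).filter (fun m => ∀ p ∈ Pr K (b ^ (k / L)), m % p ∉ Rt F p) := by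
    apply Finset.filter_congr
    intro m _
    constructor
    · intro h p hp h4
      exact h p hp ((mem_Rt F p (mem_Pr.1 hp).1.pos m).1 h4)
    · intro h p hp h4
      exact h p hp ((mem_Rt F p (mem_Pr.1 hp).1.pos m).2 h4)
  rw [h3]
  have h4 : ∏ p ∈ Pr K (b ^ (k / L)), (1 - ((Rt F p).card : ℝ) / p) =
      Wp (rho F) K (b ^ (k / L)) := rfl
  rw [h4] at h2
  linarith

/-- the size of a polynomial -/
lemma eval_le (F : ℤ[X]) (N : ℕ) (hN : 1 ≤ N) (n : ℕ) (hn : n ≤ N) :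
    (F.eval (n : ℤ)).natAbs ≤
      (∑ i ∈ range (F.natDegree + 1), (F.coeff i).natAbs) * N ^ F.natDegree := by
  rw [Polynomial.eval_eq_sum_range, Finset.sum_mul]
  refine (Int.natAbs_sum_le _ _).trans (Finset.sum_le_sum fun i hi => ?_)
  rw [Int.natAbs_mul, Int.natAbs_pow, Int.natAbs_natCast]
  apply Nat.mul_le_mul_left
  rw [Finset.mem_range] at hi
  exact (Nat.pow_le_pow_left hn i).trans (Nat.pow_le_pow_right hN (by omega))

open Classical in
/-- lower bound -/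
theorem lower {b : ℕ} (hb : 2 ≤ b) (F : ℤ[X]) (hF : 0 < F.natDegree) :
    ∃ K₁ L₁ : ℕ, 1 ≤ L₁ ∧ ∀ K, K₁ ≤ K → ∀ L, L₁ ≤ L → ∃ (R k₀ : ℕ) (c : ℝ), 0 < c ∧
      ∀ (k : ℕ), k₀ ≤ k → ∀ (D : Fin k → Finset ℕ),
      (∀ i, ∀ d ∈ D i, d < b) → (∀ i, 2 ≤ (D i).card) →
      c * (Dig b k D).card * Wp (rho F) K (b ^ (k / L)) ≤
      (((Dig b k D).filter (fun n : ℕ => F.eval (n : ℤ) ≠ 0 ∧
        (F.eval (n : ℤ)).natAbs.primeFactorsList.length ≤ R ∧
        ∀ p, p.Prime → p ∣ (F.eval (n : ℤ)).natAbs → p ≤ K ∨ b ^ (k / L) < p)).card : ℝ) := by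
  obtain ⟨K₀, L₀, hL₀, hs⟩ := sieve hb F.natDegree (1 / 2) (by norm_num)
  obtain ⟨B, hB⟩ := rho_le F (by rintro rfl; simp at hF)
  have hlc : F.leadingCoeff ≠ 0 := leadingCoeff_ne_zero.2 (by rintro rfl; simp at hF)
  obtain ⟨κ, hκ⟩ : ∃ κ, κ = F.natDegree := ⟨_, rfl⟩
  rw [← hκ] at hF hs hB
  obtain ⟨e, he⟩ : ∃ e, e = F.leadingCoeff.natAbs := ⟨_, rfl⟩
  have he1 : 1 ≤ e := by
    rw [he]
    exact Int.natAbs_pos.2 hlc
  refine ⟨K₀ + B + 2 * κ + 2, L₀, hL₀, fun K hK L hL => ?_⟩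
  obtain ⟨i, hi⟩ : ∃ i, i = K * κ * 2 := ⟨_, rfl⟩
  obtain ⟨t, ht⟩ : ∃ t, t = b * i + 1 := ⟨_, rfl⟩
  obtain ⟨E, hE⟩ : ∃ E, E = e + κ * t := ⟨_, rfl⟩
  obtain ⟨q, hq⟩ : ∃ q, q = K.factorial ^ E := ⟨_, rfl⟩
  have hq1 : 1 ≤ q := by
    rw [hq]
    exact Nat.one_le_pow _ _ (Nat.factorial_pos K)
  have hq0 : (0 : ℝ) < q := by exact_mod_cast hq1
  have hqdvd : ∀ p : ℕ, p.Prime → p ≤ K → p ^ E ∣ q := by
    intro p hp hpK
    rw [hq]
    exact pow_dvd_pow_of_dvd (Nat.dvd_factorial hp.pos hpK) E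
  obtain ⟨k₀, hk₀⟩ := hs K (by omega) q hq1 (by
    intro p hp hpq
    rw [hq] at hpq
    exact (hp.dvd_factorial).1 (hp.dvd_of_dvd_pow hpq)) (1 / (2 * q)) (by positivity)
  obtain ⟨Cf, hCf⟩ : ∃ Cf, Cf = ∑ i ∈ range (F.natDegree + 1), (F.coeff i).natAbs := ⟨_, rfl⟩
  refine ⟨(K ^ E) ^ K + 2 * L * (κ + 1), k₀ + i + Cf + L, 1 / (4 * q), by positivity, ?_⟩
  intro k hk D hD hD2
  set S := Dig b k D with hS
  have hS1 : 1 ≤ S.card := Nat.one_le_two_pow.trans (Dig_ge (b := b) D hD hD2)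
  have hS0 : (0 : ℝ) < S.card := by exact_mod_cast hS1
  have hL1 : 1 ≤ L := hL₀.trans hL
  set z := b ^ (k / L) with hzdef
  have hz : z ^ L₀ ≤ b ^ k := by
    rw [hzdef, ← pow_mul]
    apply Nat.pow_le_pow_right (by omega)
    exact (Nat.mul_le_mul_left _ hL).trans (Nat.div_mul_le_self k L)
  -- the bad integers
  set Ps := (Finset.Icc 1 K).filter Nat.Prime with hPs
  set Bp : ℕ → Finset ℕ := fun p => S.filter (fun n : ℕ => ((p : ℤ) ^ E) ∣ F.eval (n : ℤ)) with hBp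
  have hBpc : ∀ p ∈ Ps, (Bp p).card * 2 ^ i ≤ κ * S.card := by
    intro p hp
    rw [hPs, Finset.mem_filter, Finset.mem_Icc] at hp
    have h1 := pow_share hb D hD hD2 i p t e (by omega) hp.2 (by
      calc b ^ i ≤ (2 ^ b) ^ i := Nat.pow_le_pow_left Nat.lt_two_pow_self.le i
        _ = 2 ^ (b * i) := by rw [← pow_mul]
        _ ≤ 2 ^ t := Nat.pow_le_pow_right (by norm_num) (by omega)
        _ ≤ p ^ t := Nat.pow_le_pow_left hp.2.two_le t) (by omega) he1 κ F hκ.symm (by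
      intro h
      have h1 := Int.natAbs_dvd_natAbs.2 h
      rw [Int.natAbs_pow, Int.natAbs_natCast] at h1
      have h2 := Nat.le_of_dvd (Int.natAbs_pos.2 hlc) h1
      rw [← he] at h2
      have h3 : e < p ^ e := Nat.lt_pow_self hp.2.one_lt
      omega)
    rw [← hE] at h1
    exact h1
  set Gd := S.filter (fun n : ℕ => ∀ p ∈ Ps, ¬ ((p : ℤ) ^ E) ∣ F.eval (n : ℤ)) with hGd
  have hPsc : Ps.card ≤ K := by
    have : Ps.card ≤ (Finset.Icc 1 K).card := Finset.card_filter_le _ _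
    rwa [Nat.card_Icc, Nat.add_sub_cancel] at this
  have hGdc : S.card ≤ 2 * Gd.card := by
    have h1 : S ⊆ Gd ∪ Ps.biUnion Bp := by
      intro n hn
      rw [Finset.mem_union, hGd, Finset.mem_filter, Finset.mem_biUnion]
      by_cases h : ∀ p ∈ Ps, ¬ ((p : ℤ) ^ E) ∣ F.eval (n : ℤ)
      · left
        exact ⟨hn, h⟩
      · right
        push Not at h
        obtain ⟨p, hp, hpn⟩ := h
        exact ⟨p, hp, by simp only [hBp]; rw [Finset.mem_filter]; exact ⟨hn, hpn⟩⟩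
    have h2 : S.card ≤ Gd.card + ∑ p ∈ Ps, (Bp p).card :=
      (Finset.card_le_card h1).trans ((Finset.card_union_le _ _).trans
        (Nat.add_le_add_left Finset.card_biUnion_le _))
    have h3 : (∑ p ∈ Ps, (Bp p).card) * 2 ^ i ≤ K * (κ * S.card) := by
      rw [Finset.sum_mul]
      calc ∑ p ∈ Ps, (Bp p).card * 2 ^ i ≤ ∑ _p ∈ Ps, κ * S.card := Finset.sum_le_sum hBpc
        _ = Ps.card * (κ * S.card) := by rw [Finset.sum_const, smul_eq_mul]
        _ ≤ _ := Nat.mul_le_mul_right _ hPsc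
    have h4 : i < 2 ^ i := Nat.lt_two_pow_self
    have h5 : (∑ p ∈ Ps, (Bp p).card) * (K * κ * 2) ≤ K * κ * S.card := by
      calc (∑ p ∈ Ps, (Bp p).card) * (K * κ * 2) ≤ (∑ p ∈ Ps, (Bp p).card) * 2 ^ i :=
            Nat.mul_le_mul_left _ (by omega)
        _ ≤ K * (κ * S.card) := h3
        _ = _ := by ring
    have h6 : 0 < K * κ := Nat.mul_pos (by omega) hF
    have h7 : (∑ p ∈ Ps, (Bp p).card) * 2 ≤ S.card := by
      have : K * κ * ((∑ p ∈ Ps, (Bp p).card) * 2) ≤ K * κ * S.card := by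
        calc K * κ * ((∑ p ∈ Ps, (Bp p).card) * 2) = (∑ p ∈ Ps, (Bp p).card) * (K * κ * 2) := by
              ring
          _ ≤ _ := h5
      exact Nat.le_of_mul_le_mul_left this h6
    omega
  -- a good residue class
  obtain ⟨r, hr, hrc⟩ := Finset.exists_le_card_fiber_of_nsmul_le_card_of_maps_to
    (s := Gd) (t := range q) (f := fun n => n % q) (b := (Gd.card : ℝ) / q)
    (fun n _ => Finset.mem_range.2 (Nat.mod_lt _ hq1)) ⟨0, Finset.mem_range.2 hq1⟩ (by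
      rw [Finset.card_range, nsmul_eq_mul, mul_div_cancel₀ _ hq0.ne'])
  rw [Finset.mem_range] at hr
  have hGd0 : (0 : ℝ) < Gd.card := by
    have : 0 < Gd.card := by omega
    exact_mod_cast this
  have hfib : (0 : ℝ) < ((Gd.filter (fun n => n % q = r)).card : ℝ) := lt_of_lt_of_le
    (by positivity) hrc
  obtain ⟨n1, hn1⟩ := Finset.card_pos.1 (by exact_mod_cast hfib :
    0 < (Gd.filter (fun n => n % q = r)).card)
  rw [Finset.mem_filter, hGd, Finset.mem_filter] at hn1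
  have hclass : ∀ n ∈ Sr b k D q r, ∀ p ∈ Ps, ¬ ((p : ℤ) ^ E) ∣ F.eval (n : ℤ) := by
    intro n hn p hp h
    unfold Sr at hn
    rw [Finset.mem_filter, Nat.mod_eq_of_lt hr] at hn
    apply hn1.1.2 p hp
    refine (eval_mod F _ (n1 : ℤ) (n : ℤ) ?_).2 h
    have h1 : n ≡ n1 [MOD q] := by
      unfold Nat.ModEq
      rw [hn.2, hn1.2]
    have h2 := (Nat.modEq_iff_dvd).1 h1
    rw [hPs, Finset.mem_filter, Finset.mem_Icc] at hp
    have h3 := hqdvd p hp.2 hp.1.2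
    have h4 : ((p : ℤ) ^ E) ∣ (q : ℤ) := by exact_mod_cast h3
    exact h4.trans h2
  have hSrc : 1 / (2 * (q : ℝ)) * S.card ≤ (Sr b k D q r).card := by
    have h1 : Gd.filter (fun n => n % q = r) ⊆ Sr b k D q r := by
      intro n hn
      rw [Finset.mem_filter, hGd, Finset.mem_filter] at hn
      unfold Sr
      rw [Finset.mem_filter, Nat.mod_eq_of_lt hr]
      exact ⟨hn.1.1, hn.2⟩
    have h2 : ((Gd.filter (fun n => n % q = r)).card : ℝ) ≤ (Sr b k D q r).card := by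
      exact_mod_cast Finset.card_le_card h1
    refine le_trans ?_ (hrc.trans h2)
    have h3 : (S.card : ℝ) ≤ 2 * Gd.card := by exact_mod_cast hGdc
    rw [div_mul_eq_mul_div, one_mul, div_le_div_iff₀ (by positivity) hq0]
    nlinarith
  -- the sieve
  have hsv := hk₀ k (by omega) D hD hD2 z hz r hSrc (Rt F) (by
    intro p hp hKp _
    refine ⟨fun r hr => ?_, hB p hp (by omega)⟩
    unfold Rt at hr
    rw [Finset.mem_filter, Finset.mem_range] at hr
    exact hr.1)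
  have hW : ∏ p ∈ Pr K z, (1 - ((Rt F p).card : ℝ) / p) = Wp (rho F) K z := rfl
  rw [hW] at hsv
  have hW0 : 0 < Wp (rho F) K z := Wp_pos (κ := κ) (fun p hp hKp => hB p hp (by omega)) (by omega) z
  have h1 := (abs_le.1 hsv).1
  set Q := (Sr b k D q r).filter (fun m => ∀ p ∈ Pr K z, m % p ∉ Rt F p) with hQ
  have h2 : 1 / (4 * (q : ℝ)) * S.card * Wp (rho F) K z ≤ Q.card := by
    have h3 := mul_le_mul_of_nonneg_right hSrc hW0.le
    have h4 : 1 / (4 * (q : ℝ)) * S.card * Wp (rho F) K z =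
        1 / 2 * (1 / (2 * (q : ℝ)) * S.card * Wp (rho F) K z) := by
      field_simp
      ring
    rw [h4]
    linarith
  refine h2.trans (Nat.cast_le.2 (Finset.card_le_card ?_))
  intro n hn
  rw [hQ, Finset.mem_filter] at hn
  obtain ⟨hnS, hnp⟩ := hn
  have hnD : n ∈ S := by
    unfold Sr at hnS
    exact (Finset.mem_filter.1 hnS).1
  have hnb : n < b ^ k := by
    rw [hS] at hnD
    unfold Dig at hnD
    rw [Finset.mem_filter, Finset.mem_range] at hnD
    exact hnD.1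
  have hcl := hclass n hnS
  have h2Ps : 2 ∈ Ps := by
    rw [hPs, Finset.mem_filter, Finset.mem_Icc]
    exact ⟨⟨by norm_num, by omega⟩, Nat.prime_two⟩
  have hne : F.eval (n : ℤ) ≠ 0 := by
    intro h
    apply hcl 2 h2Ps
    rw [h]
    exact dvd_zero _
  have hne' : (F.eval (n : ℤ)).natAbs ≠ 0 := Int.natAbs_ne_zero.2 hne
  have hdvd : ∀ p : ℕ, p ∣ (F.eval (n : ℤ)).natAbs ↔ (p : ℤ) ∣ F.eval (n : ℤ) := fun p =>
    (Int.natCast_dvd).symm
  have hnop : ∀ p ∈ Pr K z, ¬ p ∣ (F.eval (n : ℤ)).natAbs := by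
    intro p hp h
    exact hnp p hp ((mem_Rt F p (mem_Pr.1 hp).1.pos n).2 ((hdvd p).1 h))
  have hsize : (F.eval (n : ℤ)).natAbs ≤ b ^ ((κ + 1) * k) := by
    refine (eval_le F (b ^ k) (Nat.one_le_pow _ _ (by omega)) n hnb.le).trans ?_
    rw [← hCf, ← hκ]
    calc Cf * (b ^ k) ^ κ ≤ b ^ k * (b ^ k) ^ κ := by
          apply Nat.mul_le_mul_right
          calc Cf ≤ k := by omega
            _ ≤ b ^ k := (Nat.lt_pow_self (by omega)).le
      _ = b ^ ((κ + 1) * k) := by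
          rw [← pow_succ', ← pow_mul]
          congr 1
          ring
  have hkL : 1 ≤ k / L := (Nat.one_le_div_iff (by omega)).2 (by omega)
  obtain ⟨s, m, h3, h4, h5, h6⟩ := factor (F.eval (n : ℤ)).natAbs K z (K ^ E) (2 * L * (κ + 1)) hne'
    (Nat.one_le_pow _ _ (by omega)) hnop (by
      intro p v hp hpK hpv
      have hv : v < E := by
        by_contra hv
        apply hcl p (by
          rw [hPs, Finset.mem_filter, Finset.mem_Icc]
          exact ⟨⟨hp.one_lt.le, hpK⟩, hp⟩)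
        have h5 : (p : ℤ) ^ v ∣ F.eval (n : ℤ) := by
          have := (hdvd (p ^ v)).1 hpv
          exact_mod_cast this
        exact (pow_dvd_pow _ (by omega)).trans h5
      calc p ^ v ≤ K ^ v := Nat.pow_le_pow_left hpK v
        _ ≤ K ^ E := Nat.pow_le_pow_right (by omega) hv.le) (by
      intro j hj
      have h1 : b ^ (k / L * j) ≤ b ^ ((κ + 1) * k) := by
        rw [pow_mul]
        exact hj.trans hsize
      have h2 : k / L * j ≤ (κ + 1) * k := (Nat.pow_le_pow_iff_right (by omega)).1 h1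
      have h3 : k < L * (k / L + 1) := Nat.lt_mul_div_succ k (by omega)
      have h4 : k ≤ 2 * L * (k / L) := by
        have : L * (k / L + 1) ≤ L * (2 * (k / L)) := Nat.mul_le_mul_left L (by omega)
        calc k ≤ L * (2 * (k / L)) := by omega
          _ = _ := by ring
      have h5 : k / L * j ≤ k / L * (2 * L * (κ + 1)) := by
        calc k / L * j ≤ (κ + 1) * k := h2
          _ ≤ (κ + 1) * (2 * L * (k / L)) := Nat.mul_le_mul_left _ h4
          _ = _ := by ring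
      exact Nat.le_of_mul_le_mul_left h5 hkL)
  rw [Finset.mem_filter]
  refine ⟨hnD, hne, ?_, ?_⟩
  · have hs0 : s ≠ 0 := by
      rintro rfl
      rw [zero_mul] at h3
      exact hne' h3
    have hm0 : m ≠ 0 := by
      rintro rfl
      rw [mul_zero] at h3
      exact hne' h3
    rw [h3, (Nat.perm_primeFactorsList_mul hs0 hm0).length_eq, List.length_append]
    apply Nat.add_le_add _ h5
    refine le_trans ?_ h4
    calc s.primeFactorsList.length ≤ 2 ^ s.primeFactorsList.length := Nat.lt_two_pow_self.le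
      _ ≤ s.primeFactorsList.prod := by
          apply Pool.Agent.Q263.SV.pow_len
          intro x hx
          exact (Nat.prime_of_mem_primeFactorsList hx).two_le
      _ = s := Nat.prod_primeFactorsList hs0
  · intro p hp hpd
    by_contra hcon
    push Not at hcon
    exact hnop p (mem_Pr.2 ⟨hp, hcon.1, hcon.2⟩) hpd

end Pool.Agent.Q263.SW
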