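import Mathlib
import Pool.Agent.Q263.SW.App

/-!
The theorem of Mertens for the roots of a product of polynomials.
-/

set_option autoImplicit false

open Finset Polynomial

namespace Pool.Agent.Q263.SW

open Pool.Agent.H474R2.PG (rho Sg PR rho_le rho_le_self)

/-- roots of a product modulo a large prime -/
lemma rho_prod {ι : Type} (s : Finset ι) (f : ι → ℤ[X]) (N : ι → ι → ℤ)
    (hN : ∀ i ∈ s, ∀ j ∈ s, i ≠ j → N i j ≠ 0 ∧ ∀ (p : ℕ) (x : ℤ), p.Prime →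
      (p : ℤ) ∣ (f i).eval x → (p : ℤ) ∣ (f j).eval x → (p : ℤ) ∣ N i j)
    (p : ℕ) (hp : p.Prime) (hpN : ∀ i ∈ s, ∀ j ∈ s, i ≠ j → (N i j).natAbs < p) :
    rho (∏ i ∈ s, f i) p = ∑ i ∈ s, rho (f i) p := by
  classical
  have hpp : Prime (p : ℤ) := Nat.prime_iff_prime_int.1 hp
  unfold rho
  rw [← Finset.card_biUnion]
  · congr 1
    ext a
    rw [Finset.mem_filter, Finset.mem_biUnion, Polynomial.eval_prod, hpp.dvd_finsetProd_iff]
    constructor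
    · rintro ⟨h1, i, hi, h2⟩
      exact ⟨i, hi, Finset.mem_filter.2 ⟨h1, h2⟩⟩
    · rintro ⟨i, hi, h⟩
      rw [Finset.mem_filter] at h
      exact ⟨h.1, i, hi, h.2⟩
  · intro i hi j hj hij
    rw [Function.onFun, Finset.disjoint_left]
    intro a ha hb
    rw [Finset.mem_filter] at ha hb
    obtain ⟨h1, h2⟩ := hN i hi j hj hij
    have h3 := h2 p (a : ℤ) hp ha.2 hb.2
    have h4 := Int.natAbs_dvd_natAbs.2 h3
    rw [Int.natAbs_natCast] at h4
    have h5 := Nat.le_of_dvd (Int.natAbs_pos.2 h1) h4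
    have h6 := hpN i hi j hj hij
    omega

/-- Mertens for a product -/
theorem mert_prod {ι : Type} (s : Finset ι) (f : ι → ℤ[X]) (N : ι → ι → ℤ)
    (hN : ∀ i ∈ s, ∀ j ∈ s, i ≠ j → N i j ≠ 0 ∧ ∀ (p : ℕ) (x : ℤ), p.Prime →
      (p : ℤ) ∣ (f i).eval x → (p : ℤ) ∣ (f j).eval x → (p : ℤ) ∣ N i j)
    (hf : ∀ i ∈ s, Irreducible (f i) ∧ 0 < (f i).natDegree) :
    ∃ C : ℝ, ∀ w : ℝ, 3 ≤ w →
      |Sg (rho (∏ i ∈ s, f i)) w - (s.card : ℝ) * Real.log (Real.log w)| ≤ C := by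
  classical
  have h1 : ∀ i ∈ s, ∃ C : ℝ, 0 ≤ C ∧ ∀ w : ℝ, 3 ≤ w →
      |Sg (rho (f i)) w - Real.log (Real.log w)| ≤ C := fun i hi =>
    Pool.Agent.H474R2.GE.mertens_rho (f i) (hf i hi).1 (hf i hi).2
  choose! C hC0 hC using h1
  obtain ⟨M, hM⟩ : ∃ M : ℕ, M = ∑ i ∈ s, ∑ j ∈ s, (N i j).natAbs := ⟨_, rfl⟩
  have hMN : ∀ i ∈ s, ∀ j ∈ s, (N i j).natAbs ≤ M := by
    intro i hi j hj
    rw [hM]
    exact (Finset.single_le_sum (f := fun j => (N i j).natAbs) (fun _ _ => Nat.zero_le _) hj).trans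
      (Finset.single_le_sum (f := fun i => ∑ j ∈ s, (N i j).natAbs) (fun _ _ => Nat.zero_le _) hi)
  obtain ⟨F, hF⟩ : ∃ F : ℤ[X], F = ∏ i ∈ s, f i := ⟨_, rfl⟩
  have hlarge : ∀ p : ℕ, p.Prime → M < p → rho F p = ∑ i ∈ s, rho (f i) p := by
    intro p hp hpM
    rw [hF]
    exact rho_prod s f N hN p hp fun i hi j hj _ => lt_of_le_of_lt (hMN i hi j hj) hpM
  have hF' : ∏ i ∈ s, f i = F := hF.symm
  rw [hF']
  set A : ℝ := ∑ p ∈ (Finset.Icc 1 M).filter Nat.Prime,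
    (((rho F p : ℝ) / p) + ∑ i ∈ s, (rho (f i) p : ℝ) / p) with hA
  have hA0 : 0 ≤ A := Finset.sum_nonneg fun p _ =>
    add_nonneg (by positivity) (Finset.sum_nonneg fun _ _ => by positivity)
  refine ⟨∑ i ∈ s, C i + A, fun w hw => ?_⟩
  have h2 : |Sg (rho F) w - ∑ i ∈ s, Sg (rho (f i)) w| ≤ A := by
    unfold Sg
    rw [Finset.sum_comm, ← Finset.sum_sub_distrib]
    refine (Finset.abs_sum_le_sum_abs _ _).trans ?_
    have h3 : ∀ p ∈ PR w, |(rho F p : ℝ) / p - ∑ i ∈ s, (rho (f i) p : ℝ) / p| ≤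
        if p ≤ M then ((rho F p : ℝ) / p) + ∑ i ∈ s, (rho (f i) p : ℝ) / p else 0 := by
      intro p hp
      unfold PR at hp
      rw [Finset.mem_filter] at hp
      split_ifs with h
      · refine (abs_sub _ _).trans (le_of_eq ?_)
        rw [abs_of_nonneg (by positivity), abs_of_nonneg (Finset.sum_nonneg fun _ _ => by positivity)]
      · rw [hlarge p hp.2 (by omega)]
        push_cast
        rw [Finset.sum_div, sub_self, abs_zero]
    refine (Finset.sum_le_sum h3).trans ?_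
    rw [← Finset.sum_filter]
    apply Finset.sum_le_sum_of_subset_of_nonneg
    · intro p hp
      unfold PR at hp
      rw [Finset.mem_filter, Finset.mem_filter, Finset.mem_Icc] at hp
      rw [Finset.mem_filter, Finset.mem_Icc]
      exact ⟨⟨hp.1.1.1, hp.2⟩, hp.1.2⟩
    · intro p _ _
      exact add_nonneg (by positivity) (Finset.sum_nonneg fun _ _ => by positivity)
  have h3 : |∑ i ∈ s, Sg (rho (f i)) w - (s.card : ℝ) * Real.log (Real.log w)| ≤ ∑ i ∈ s, C i := by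
    have e : ∑ i ∈ s, Sg (rho (f i)) w - (s.card : ℝ) * Real.log (Real.log w) =
        ∑ i ∈ s, (Sg (rho (f i)) w - Real.log (Real.log w)) := by
      rw [Finset.sum_sub_distrib, Finset.sum_const, nsmul_eq_mul]
    rw [e]
    exact (Finset.abs_sum_le_sum_abs _ _).trans (Finset.sum_le_sum fun i hi => hC i hi w hw)
  calc |Sg (rho F) w - (s.card : ℝ) * Real.log (Real.log w)| =
        |(Sg (rho F) w - ∑ i ∈ s, Sg (rho (f i)) w) +
          (∑ i ∈ s, Sg (rho (f i)) w - (s.card : ℝ) * Real.log (Real.log w))| := by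
        congr 1
        ring
    _ ≤ _ := (abs_add_le _ _).trans (by linarith)

/-- `z` is small compared with the number of the elements of the set -/
lemma small_z (b r L : ℕ) (hb : 2 ≤ b) (hL : 2 * b ≤ L) (C : ℝ) : ∃ k₀ : ℕ, ∀ k : ℕ, k₀ ≤ k →
    C * ((b ^ (k / L) : ℕ) : ℝ) * (k : ℝ) ^ r ≤ (2 : ℝ) ^ k := by
  obtain ⟨k1, hk1⟩ := Pool.Agent.Q263.SV.growth 2 le_rfl (2 * r) (C ^ 2)
  refine ⟨k1, fun k hk => ?_⟩
  have h1 := hk1 k hk
  have h2 : ((b ^ (k / L) : ℕ) : ℝ) ^ 2 ≤ (2 : ℝ) ^ k := by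
    have h3 : (b ^ (k / L)) ^ 2 ≤ 2 ^ k := by
      calc (b ^ (k / L)) ^ 2 ≤ ((2 ^ b) ^ (k / L)) ^ 2 :=
            Nat.pow_le_pow_left (Nat.pow_le_pow_left Nat.lt_two_pow_self.le _) 2
        _ = 2 ^ (2 * b * (k / L)) := by rw [← pow_mul, ← pow_mul]; congr 1; ring
        _ ≤ 2 ^ k := by
            apply Nat.pow_le_pow_right (by norm_num)
            exact (Nat.mul_le_mul_right _ hL).trans (Nat.mul_div_le k L)
    exact_mod_cast h3
  have h4 : (C * ((b ^ (k / L) : ℕ) : ℝ) * (k : ℝ) ^ r) ^ 2 ≤ ((2 : ℝ) ^ k) ^ 2 := by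
    calc (C * ((b ^ (k / L) : ℕ) : ℝ) * (k : ℝ) ^ r) ^ 2 =
          (C ^ 2 * (k : ℝ) ^ (2 * r)) * ((b ^ (k / L) : ℕ) : ℝ) ^ 2 := by ring
      _ ≤ (2 : ℝ) ^ k * (2 : ℝ) ^ k := by
          apply mul_le_mul _ h2 (by positivity) (by positivity)
          exact_mod_cast h1
      _ = _ := by ring
  exact (abs_le_of_sq_le_sq' h4 (by positivity)).2

open Pool.Agent.Q263.MD (Dig Dig_ge)
open Pool.Agent.Q263.SV (Pr mem_Pr)

open Classical in
/-- both bounds -/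
theorem both {b : ℕ} (hb : 2 ≤ b) {ι : Type} (s : Finset ι) (hs : s.Nonempty) (f : ι → ℤ[X])
    (N : ι → ι → ℤ)
    (hN : ∀ i ∈ s, ∀ j ∈ s, i ≠ j → N i j ≠ 0 ∧ ∀ (p : ℕ) (x : ℤ), p.Prime →
      (p : ℤ) ∣ (f i).eval x → (p : ℤ) ∣ (f j).eval x → (p : ℤ) ∣ N i j)
    (hf : ∀ i ∈ s, Irreducible (f i) ∧ 0 < (f i).natDegree) :
    ∃ (R K L k₀ : ℕ) (c C : ℝ), 1 ≤ L ∧ 0 < c ∧ ∀ k : ℕ, k₀ ≤ k → ∀ D : Fin k → Finset ℕ,
      (∀ i, ∀ d ∈ D i, d < b) → (∀ i, 2 ≤ (D i).card) →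
      c * (Dig b k D).card / (k : ℝ) ^ s.card ≤
        (((Dig b k D).filter (fun n : ℕ => 1 ≤ n ∧ (∏ i ∈ s, f i).eval (n : ℤ) ≠ 0 ∧
          ((∏ i ∈ s, f i).eval (n : ℤ)).natAbs.primeFactorsList.length ≤ R ∧
          ∀ p, p.Prime → p ∣ ((∏ i ∈ s, f i).eval (n : ℤ)).natAbs →
            p ≤ K ∨ b ^ (k / L) < p)).card : ℝ) ∧
      (((Dig b k D).filter (fun n : ℕ => ∀ p ∈ Pr K (b ^ (k / L)),
        ¬ (p : ℤ) ∣ (∏ i ∈ s, f i).eval (n : ℤ))).card : ℝ) ≤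
          C * (Dig b k D).card / (k : ℝ) ^ s.card ∧
      ((b ^ (k / L) : ℕ) : ℝ) ≤ (Dig b k D).card / (k : ℝ) ^ s.card ∧ K < b ^ (k / L) := by
  obtain ⟨F, hF⟩ : ∃ F : ℤ[X], F = ∏ i ∈ s, f i := ⟨_, rfl⟩
  have hM := mert_prod s f N hN hf
  rw [← hF] at hM ⊢
  have hdeg : 0 < F.natDegree := by
    rw [hF, Polynomial.natDegree_prod _ _ (fun i hi => (hf i hi).1.ne_zero)]
    exact Finset.sum_pos (fun i hi => (hf i hi).2) hs
  obtain ⟨K1, L1, hL1, hup⟩ := upper hb F hdeg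
  obtain ⟨K2, L2, hL2, hlow⟩ := lower hb F hdeg
  obtain ⟨B, hB⟩ := rho_le F (by rintro h; rw [h] at hdeg; simp at hdeg)
  obtain ⟨K, hK⟩ : ∃ K, K = K1 + K2 + B + 2 * F.natDegree := ⟨_, rfl⟩
  obtain ⟨L, hL⟩ : ∃ L, L = L1 + L2 + 2 * b := ⟨_, rfl⟩
  obtain ⟨R, k0, c0, hc0, hlow'⟩ := hlow K (by omega) L (by omega)
  obtain ⟨k1, c1, C1, hc1, hC1, hW⟩ := Wp_order hb (rho F) s.card F.natDegree hM K
    (fun p hp hKp => hB p hp (by omega)) (by omega) L (by omega)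
  obtain ⟨k2, hk2⟩ := small_z b s.card L hb (by omega) 1
  obtain ⟨k3, hk3⟩ := Pool.Agent.Q263.SV.growth 2 le_rfl s.card (2 / (c0 * c1))
  refine ⟨R, K, L, k0 + k1 + k2 + k3 + L * (K + 1) + 1, c0 * c1 / 2, 2 * C1, by omega,
    by positivity, ?_⟩
  intro k hk D hD hD2
  have hk1 : (0 : ℝ) < k := by exact_mod_cast (by omega : 0 < k)
  have hS2 : (2 : ℝ) ^ k ≤ (Dig b k D).card := by
    have := Dig_ge (b := b) D hD hD2
    exact_mod_cast this
  obtain ⟨hW1, hW2⟩ := hW k (by omega)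
  set S := Dig b k D with hS
  have hS0 : (0 : ℝ) ≤ S.card := Nat.cast_nonneg _
  refine ⟨?_, ?_, ?_, ?_⟩
  · have h1 := hlow' k (by omega) D hD hD2
    set A := S.filter (fun n : ℕ => F.eval (n : ℤ) ≠ 0 ∧
        (F.eval (n : ℤ)).natAbs.primeFactorsList.length ≤ R ∧
        ∀ p, p.Prime → p ∣ (F.eval (n : ℤ)).natAbs → p ≤ K ∨ b ^ (k / L) < p) with hA
    have h2 : A ⊆ insert 0 (S.filter (fun n : ℕ => 1 ≤ n ∧ F.eval (n : ℤ) ≠ 0 ∧
        (F.eval (n : ℤ)).natAbs.primeFactorsList.length ≤ R ∧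
        ∀ p, p.Prime → p ∣ (F.eval (n : ℤ)).natAbs → p ≤ K ∨ b ^ (k / L) < p)) := by
      intro n hn
      rw [hA, Finset.mem_filter] at hn
      rw [Finset.mem_insert, Finset.mem_filter]
      rcases Nat.eq_zero_or_pos n with h | h
      · left
        exact h
      · right
        exact ⟨hn.1, h, hn.2⟩
    have h3 := (Finset.card_le_card h2).trans (Finset.card_insert_le _ _)
    have h4 : (A.card : ℝ) ≤ ((S.filter (fun n : ℕ => 1 ≤ n ∧ F.eval (n : ℤ) ≠ 0 ∧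
        (F.eval (n : ℤ)).natAbs.primeFactorsList.length ≤ R ∧
        ∀ p, p.Prime → p ∣ (F.eval (n : ℤ)).natAbs → p ≤ K ∨ b ^ (k / L) < p)).card : ℝ) + 1 := by
      exact_mod_cast h3
    have h5 : c0 * S.card * (c1 / (k : ℝ) ^ s.card) ≤ A.card :=
      (mul_le_mul_of_nonneg_left hW1 (by positivity)).trans h1
    have h6 : 1 ≤ c0 * c1 / 2 * S.card / (k : ℝ) ^ s.card := by
      rw [le_div_iff₀ (by positivity), one_mul]
      have h7 := hk3 k (by omega)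
      push_cast at h7
      have h8 := h7.trans hS2
      calc (k : ℝ) ^ s.card = c0 * c1 / 2 * (2 / (c0 * c1) * (k : ℝ) ^ s.card) := by
            field_simp
        _ ≤ c0 * c1 / 2 * S.card := mul_le_mul_of_nonneg_left h8 (by positivity)
    have h7 : c0 * S.card * (c1 / (k : ℝ) ^ s.card) =
        c0 * c1 / 2 * S.card / (k : ℝ) ^ s.card + c0 * c1 / 2 * S.card / (k : ℝ) ^ s.card := by
      ring
    linarith
  · have h1 := hup K (by omega) L (by omega) k D hD hD2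
    refine h1.trans ?_
    calc 2 * (S.card : ℝ) * Wp (rho F) K (b ^ (k / L)) ≤ 2 * S.card * (C1 / (k : ℝ) ^ s.card) :=
          mul_le_mul_of_nonneg_left hW2 (by positivity)
      _ = _ := by ring
  · rw [le_div_iff₀ (by positivity)]
    have h1 := hk2 k (by omega)
    rw [one_mul] at h1
    exact h1.trans hS2
  · have h1 : K + 1 ≤ k / L := by
      rw [Nat.le_div_iff_mul_le (by omega)]
      calc (K + 1) * L = L * (K + 1) := by ring
        _ ≤ k := by omega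
    calc K < k / L := by omega
      _ < b ^ (k / L) := Nat.lt_pow_self (by omega)

end Pool.Agent.Q263.SW
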